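import Mathlib

/-!
# Spectral splitting of a subspace against another one
-/

set_option autoImplicit false

namespace Pool.BL

open Module Submodule InnerProductSpace

variable {V : Type*} [NormedAddCommGroup V] [InnerProductSpace ℝ V] [FiniteDimensional ℝ V]

/-- The size of `v` modulo `U`. -/
noncomputable def dm (U : Submodule ℝ V) (v : V) : ℝ := ‖v - U.starProjection v‖

theorem dm_nonneg (U : Submodule ℝ V) (v : V) : 0 ≤ dm U v := norm_nonneg _

theorem dm_eq (U : Submodule ℝ V) (v : V) : dm U v = ‖Uᗮ.starProjection v‖ := by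
  rw [dm, starProjection_orthogonal_val]

theorem dm_le_of_mem (U : Submodule ℝ V) (v : V) {w : V} (hw : w ∈ U) : dm U v ≤ ‖v - w‖ := by
  rw [dm, starProjection_minimal]
  exact ciInf_le ⟨0, by rintro _ ⟨x, rfl⟩; exact norm_nonneg _⟩ (⟨w, hw⟩ : U)

theorem dm_le_norm (U : Submodule ℝ V) (v : V) : dm U v ≤ ‖v‖ := by
  simpa using dm_le_of_mem U v (zero_mem U)

theorem dm_add (U : Submodule ℝ V) (v w : V) : dm U (v + w) ≤ dm U v + dm U w := by
  simp only [dm_eq, map_add]
  exact norm_add_le _ _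

theorem dm_neg (U : Submodule ℝ V) (v : V) : dm U (-v) = dm U v := by
  simp only [dm_eq, map_neg, norm_neg]

theorem dm_mem {U : Submodule ℝ V} {v : V} (hv : v ∈ U) : dm U v = 0 := by
  rw [dm, starProjection_eq_self_iff.mpr hv, sub_self, norm_zero]

theorem dm_mono {U W : Submodule ℝ V} (h : U ≤ W) (v : V) : dm W v ≤ dm U v :=
  dm_le_of_mem W v (h (starProjection_apply_mem U v))

/-- `A'`, `A''`: the parts of `A` at small and at large angle with `B`. -/
structure Spl (A B A' A'' : Submodule ℝ V) (lo hi : ℝ) : Prop where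
  le1 : A' ≤ A
  le2 : A'' ≤ A
  dim : finrank ℝ A' + finrank ℝ A'' = finrank ℝ A
  dec : ∀ v ∈ A, ∃ v' ∈ A', ∃ v'' ∈ A'', v = v' + v'' ∧ ‖v'‖ ≤ ‖v‖
  small : ∀ v ∈ A', dm B v ≤ lo * ‖v‖
  big : ∀ v ∈ A'', hi * ‖v‖ ≤ dm B v

/-- The operator whose quadratic form is `dm B ^ 2` on `A`. -/
noncomputable def opT (A B : Submodule ℝ V) : A →ₗ[ℝ] A :=
  (A.orthogonalProjectionOnto : V →L[ℝ] A).toLinearMap ∘ₗ
    (Bᗮ.starProjection : V →L[ℝ] V).toLinearMap ∘ₗ A.subtype

theorem inner_opT (A B : Submodule ℝ V) (x y : A) :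
    inner ℝ (opT A B x) y = inner ℝ (Bᗮ.starProjection (x : V)) (Bᗮ.starProjection (y : V)) := by
  have h1 : inner ℝ (opT A B x) y = inner ℝ (Bᗮ.starProjection (x : V)) (y : V) := by
    simp only [opT, LinearMap.comp_apply, ContinuousLinearMap.coe_coe, Submodule.subtype_apply]
    exact Submodule.inner_orthogonalProjectionOnto_eq_of_mem_right _ _
  rw [h1]
  have h2 := Submodule.inner_starProjection_left_eq_right (K := Bᗮ) (𝕜 := ℝ)
  rw [← h2]
  congr 1
  exact (starProjection_eq_self_iff.mpr (starProjection_apply_mem _ _)).symm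

theorem opT_symm (A B : Submodule ℝ V) : (opT A B).IsSymmetric := fun x y => by
  rw [inner_opT, real_inner_comm (opT A B y) x, inner_opT, real_inner_comm]


/-- The principal directions. -/
noncomputable def pb (A B : Submodule ℝ V) : OrthonormalBasis (Fin (finrank ℝ A)) ℝ A :=
  (opT_symm A B).eigenvectorBasis rfl

/-- The squares of the principal sines. -/
noncomputable def pl (A B : Submodule ℝ V) (i : Fin (finrank ℝ A)) : ℝ :=
  (opT_symm A B).eigenvalues rfl i

theorem dm_sq (A B : Submodule ℝ V) (x : A) :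
    dm B (x : V) ^ 2 = ∑ i, pl A B i * (inner ℝ (pb A B i) x) ^ 2 := by
  have h1 : dm B (x : V) ^ 2 = inner ℝ (opT A B x) x := by
    rw [inner_opT, dm_eq, ← real_inner_self_eq_norm_sq]
  rw [h1, ← (pb A B).sum_inner_mul_inner (opT A B x) x]
  refine Finset.sum_congr rfl fun i _ => ?_
  have h2 : inner ℝ (opT A B x) (pb A B i) = pl A B i * inner ℝ (pb A B i) x := by
    rw [opT_symm A B x (pb A B i)]
    have h3 : opT A B (pb A B i) = pl A B i • pb A B i := by
      have := (opT_symm A B).apply_eigenvectorBasis (n := finrank ℝ A) rfl i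
      simpa [pb, pl] using this
    rw [h3, inner_smul_right, real_inner_comm]
  rw [h2]
  ring

theorem nm_sq (A B : Submodule ℝ V) (x : A) :
    ‖(x : V)‖ ^ 2 = ∑ i, (inner ℝ (pb A B i) x) ^ 2 := by
  have h := (pb A B).sum_sq_norm_inner_right x
  rw [Submodule.coe_norm] at h
  rw [← h]
  refine Finset.sum_congr rfl fun i _ => ?_
  rw [Real.norm_eq_abs, sq_abs]

theorem pl_nonneg (A B : Submodule ℝ V) (i : Fin (finrank ℝ A)) : 0 ≤ pl A B i := by
  have h := dm_sq A B (pb A B i)
  rw [Finset.sum_eq_single i] at h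
  · rw [OrthonormalBasis.inner_eq_one, one_pow, mul_one] at h
    rw [← h]
    positivity
  · intro j _ hj
    rw [OrthonormalBasis.inner_eq_zero _ hj]
    simp
  · simp

/-- The span of the principal directions in `I`. -/
noncomputable def sp (A B : Submodule ℝ V) (I : Finset (Fin (finrank ℝ A))) : Submodule ℝ V :=
  span ℝ ((fun i => ((pb A B i : A) : V)) '' (I : Set (Fin (finrank ℝ A))))

theorem li_pb (A B : Submodule ℝ V) :
    LinearIndependent ℝ (fun i => ((pb A B i : A) : V)) := by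
  have h := (pb A B).orthonormal.linearIndependent
  exact h.map' A.subtype (Submodule.ker_subtype A)

theorem finrank_sp (A B : Submodule ℝ V) (I : Finset (Fin (finrank ℝ A))) :
    finrank ℝ (sp A B I) = I.card := by
  rw [sp]
  have h : LinearIndependent ℝ (fun i : I => ((pb A B i : A) : V)) :=
    (li_pb A B).comp _ Subtype.val_injective
  have h2 := finrank_span_eq_card h
  rw [Fintype.card_coe] at h2
  rw [← h2, Set.image_eq_range]
  rfl

theorem sp_le (A B : Submodule ℝ V) (I : Finset (Fin (finrank ℝ A))) : sp A B I ≤ A := by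
  rw [sp, span_le]
  rintro _ ⟨i, _, rfl⟩
  exact (pb A B i).2

theorem sp_coef (A B : Submodule ℝ V) (I : Finset (Fin (finrank ℝ A))) {v : V}
    (hv : v ∈ sp A B I) (hA : v ∈ A) (i : Fin (finrank ℝ A)) (hi : i ∉ I) :
    inner ℝ (pb A B i) (⟨v, hA⟩ : A) = 0 := by
  have key : ∀ w ∈ sp A B I, inner ℝ ((pb A B i : A) : V) w = 0 := by
    intro w hw
    rw [sp] at hw
    induction hw using span_induction with
    | mem x hx =>
      obtain ⟨j, hj, rfl⟩ := hx
      have hne : i ≠ j := fun h => hi (h ▸ hj)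
      have := OrthonormalBasis.inner_eq_zero (pb A B) hne
      simpa using this
    | zero => simp
    | add x y _ _ hx hy => rw [inner_add_right, hx, hy, add_zero]
    | smul a x _ hx => rw [inner_smul_right, hx, mul_zero]
  have := key v hv
  simpa using this

theorem sp_dec (A B : Submodule ℝ V) (I : Finset (Fin (finrank ℝ A))) {v : V} (hv : v ∈ A) :
    ∃ v' ∈ sp A B I, ∃ v'' ∈ sp A B Iᶜ, v = v' + v'' ∧ ‖v'‖ ≤ ‖v‖ := by
  classical
  set x : A := ⟨v, hv⟩
  set c : Fin (finrank ℝ A) → ℝ := fun i => inner ℝ (pb A B i) x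
  refine ⟨((∑ i ∈ I, c i • pb A B i : A) : V), ?_, ((∑ i ∈ Iᶜ, c i • pb A B i : A) : V), ?_, ?_, ?_⟩
  · rw [Submodule.coe_sum]
    refine sum_mem fun i hi => ?_
    rw [Submodule.coe_smul]
    exact smul_mem _ _ (subset_span ⟨i, by exact_mod_cast hi, rfl⟩)
  · rw [Submodule.coe_sum]
    refine sum_mem fun i hi => ?_
    rw [Submodule.coe_smul]
    exact smul_mem _ _ (subset_span ⟨i, by exact_mod_cast hi, rfl⟩)
  · rw [← Submodule.coe_add, Finset.sum_add_sum_compl]
    have := (pb A B).sum_repr' x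
    exact (congrArg Subtype.val this).symm
  · rw [← Submodule.coe_norm]
    have h1 : ‖(∑ i ∈ I, c i • pb A B i : A)‖ ^ 2 = ∑ i ∈ I, c i ^ 2 := by
      have := (pb A B).orthonormal.inner_sum c c I
      rw [← real_inner_self_eq_norm_sq, this]
      refine Finset.sum_congr rfl fun i _ => ?_
      simp [sq]
    have h2 : ‖v‖ ^ 2 = ∑ i, c i ^ 2 := nm_sq A B x
    have h3 : ‖(∑ i ∈ I, c i • pb A B i : A)‖ ^ 2 ≤ ‖v‖ ^ 2 := by
      rw [h1, h2]
      exact Finset.sum_le_sum_of_subset_of_nonneg (Finset.subset_univ _) fun i _ _ => sq_nonneg _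
    exact le_of_sq_le_sq h3 (norm_nonneg _)

/-- **The splitting.** -/
theorem spl (A B : Submodule ℝ V) (I : Finset (Fin (finrank ℝ A))) {lo hi : ℝ} (h0 : 0 ≤ lo)
    (h1 : 0 ≤ hi) (hI : ∀ i ∈ I, pl A B i ≤ lo ^ 2) (hJ : ∀ i, i ∉ I → hi ^ 2 ≤ pl A B i) :
    Spl A B (sp A B I) (sp A B Iᶜ) lo hi := by
  classical
  refine ⟨sp_le A B I, sp_le A B _, ?_, fun v hv => sp_dec A B I hv, ?_, ?_⟩
  · rw [finrank_sp, finrank_sp, Finset.card_compl, Fintype.card_fin]
    have := Finset.card_le_univ I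
    rw [Fintype.card_fin] at this
    omega
  · intro v hv
    have hA := sp_le A B I hv
    have e1 := dm_sq A B ⟨v, hA⟩
    have e2 := nm_sq A B ⟨v, hA⟩
    have h3 : dm B v ^ 2 ≤ (lo * ‖v‖) ^ 2 := by
      rw [mul_pow]
      simp only at e1 e2
      rw [e1, e2, Finset.mul_sum]
      refine Finset.sum_le_sum fun i _ => ?_
      by_cases hi' : i ∈ I
      · exact mul_le_mul_of_nonneg_right (hI i hi') (sq_nonneg _)
      · rw [sp_coef A B I hv hA i hi']
        simp
    exact le_of_sq_le_sq h3 (by positivity)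
  · intro v hv
    have hA := sp_le A B _ hv
    have e1 := dm_sq A B ⟨v, hA⟩
    have e2 := nm_sq A B ⟨v, hA⟩
    have h3 : (hi * ‖v‖) ^ 2 ≤ dm B v ^ 2 := by
      rw [mul_pow]
      simp only at e1 e2
      rw [e1, e2, Finset.mul_sum]
      refine Finset.sum_le_sum fun i _ => ?_
      by_cases hi' : i ∈ I
      · rw [sp_coef A B _ hv hA i (by simpa using hi')]
        simp
      · exact mul_le_mul_of_nonneg_right (hJ i hi') (sq_nonneg _)
    exact le_of_sq_le_sq h3 (dm_nonneg _ _)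

/-- The chain of parts at small angle. -/
theorem chain (N : ℕ) : ∃ C : ℕ, ∀ (U : ℕ → Submodule ℝ V) (A₀ : Submodule ℝ V),
    ∃ Z : Finset ℝ, Z.card ≤ C ∧ ∀ lo hi : ℝ, 0 ≤ lo → lo ≤ hi → (∀ z ∈ Z, z ≤ lo ∨ hi ≤ z) →
      ∃ A : ℕ → Submodule ℝ V, A 0 = A₀ ∧ ∀ j < N, ∃ A'', Spl (A j) (U j) (A (j + 1)) A'' lo hi := by
  classical
  induction N with
  | zero =>
    refine ⟨0, fun U A₀ => ⟨∅, by simp, fun lo hi _ _ _ => ⟨fun _ => A₀, rfl, by simp⟩⟩⟩
  | succ N ih =>
    obtain ⟨C, hC⟩ := ih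
    refine ⟨finrank ℝ V + (2 ^ finrank ℝ V) * C, fun U A₀ => ?_⟩
    choose Z hZc hZ using fun I : Finset (Fin (finrank ℝ A₀)) =>
      hC (fun j => U (j + 1)) (sp A₀ (U 0) I)
    have hfr : finrank ℝ A₀ ≤ finrank ℝ V := Submodule.finrank_le A₀
    refine ⟨(Finset.univ.image fun i => Real.sqrt (pl A₀ (U 0) i)) ∪
      Finset.univ.biUnion Z, ?_, ?_⟩
    · refine (Finset.card_union_le _ _).trans (Nat.add_le_add ?_ ?_)
      · refine Finset.card_image_le.trans ?_
        rw [Finset.card_univ, Fintype.card_fin]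
        exact hfr
      · refine Finset.card_biUnion_le.trans ?_
        refine (Finset.sum_le_sum fun I _ => hZc I).trans ?_
        rw [Finset.sum_const, smul_eq_mul, Finset.card_univ, Fintype.card_finset, Fintype.card_fin]
        exact Nat.mul_le_mul_right _ (Nat.pow_le_pow_right (by norm_num) hfr)
    · intro lo hi h0 h1 hgap
      set I : Finset (Fin (finrank ℝ A₀)) :=
        Finset.univ.filter fun i => Real.sqrt (pl A₀ (U 0) i) ≤ lo with hIdef
      obtain ⟨A, hA0, hA⟩ := hZ I lo hi h0 h1 (fun z hz => hgap z (Finset.mem_union_right _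
        (Finset.mem_biUnion.mpr ⟨I, Finset.mem_univ _, hz⟩)))
      refine ⟨fun j => Nat.casesOn j A₀ A, rfl, fun j hj => ?_⟩
      rcases j with _ | j
      · refine ⟨sp A₀ (U 0) Iᶜ, ?_⟩
        change Spl A₀ (U 0) (A 0) _ lo hi
        rw [hA0]
        refine spl A₀ (U 0) I h0 (h0.trans h1) (fun i hi' => ?_) (fun i hi' => ?_)
        · have h2 : Real.sqrt (pl A₀ (U 0) i) ≤ lo := by simpa [hIdef] using hi'
          rw [Real.sqrt_le_left h0] at h2
          exact h2
        · have h2 : ¬ Real.sqrt (pl A₀ (U 0) i) ≤ lo := by simpa [hIdef] using hi'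
          have h3 := hgap (Real.sqrt (pl A₀ (U 0) i)) (Finset.mem_union_left _
            (Finset.mem_image_of_mem _ (Finset.mem_univ i)))
          have h4 : hi ≤ Real.sqrt (pl A₀ (U 0) i) := h3.resolve_left h2
          calc hi ^ 2 ≤ Real.sqrt (pl A₀ (U 0) i) ^ 2 :=
                pow_le_pow_left₀ (h0.trans h1) h4 2
            _ = _ := Real.sq_sqrt (pl_nonneg _ _ _)
      · exact hA j (by omega)

end Pool.BL
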