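import Pool.Agent.H86.BL.Stab

/-!
# The core: choice of the scale and telescoping
-/

set_option autoImplicit false

namespace Pool.BL

open Module Submodule Finset

/-- Disjoint gaps: few scales are bad. -/
theorem few_bad {L : ℕ → ℕ} (hL : Monotone L) (Z : Finset ℝ) (a M : ℕ) :
    ((((Finset.range M).filter fun k => ∃ z ∈ Z, (1 : ℝ) / 2 ^ (L (a + k + 1)) < z ∧
      z < 1 / 2 ^ (L (a + k)))).card) ≤ Z.card := by
  classical
  refine Finset.card_le_card_of_injOn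
    (fun k => if h : ∃ z ∈ Z, (1 : ℝ) / 2 ^ (L (a + k + 1)) < z ∧ z < 1 / 2 ^ (L (a + k))
      then h.choose else 0) ?_ ?_
  · intro k hk
    have hk' := (Finset.mem_filter.mp hk).2
    simp only [dif_pos hk']
    exact hk'.choose_spec.1
  · intro k hk k' hk' he
    have h1 := (Finset.mem_filter.mp hk).2
    have h2 := (Finset.mem_filter.mp hk').2
    simp only [dif_pos h1, dif_pos h2] at he
    obtain ⟨_, a1, a2⟩ := h1.choose_spec
    obtain ⟨_, b1, b2⟩ := h2.choose_spec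
    rw [he] at a1 a2
    rcases lt_trichotomy k k' with h | h | h
    · exfalso
      have h3 : L (a + k + 1) ≤ L (a + k') := hL (by omega)
      have h4 : (1 : ℝ) / 2 ^ (L (a + k')) ≤ 1 / 2 ^ (L (a + k + 1)) :=
        one_div_le_one_div_of_le (by positivity) (pow_le_pow_right₀ (by norm_num) h3)
      linarith
    · exact h
    · exfalso
      have h3 : L (a + k' + 1) ≤ L (a + k) := hL (by omega)
      have h4 : (1 : ℝ) / 2 ^ (L (a + k)) ≤ 1 / 2 ^ (L (a + k' + 1)) :=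
        one_div_le_one_div_of_le (by positivity) (pow_le_pow_right₀ (by norm_num) h3)
      linarith

open Classical in
/-- The choice of a scale which is good for most `x`. -/
theorem exists_scale {ι : Type*} [Fintype ι] {ν : ι → ℝ} (hν : ∀ j, 0 ≤ ν j)
    (hν1 : ∑ j, ν j = 1) {L : ℕ → ℕ} (hL : Monotone L) (Z : ι → Finset ℝ) {C : ℕ}
    (hZ : ∀ x, (Z x).card ≤ C) (a : ℕ) {M : ℕ} (hM : 0 < M) :
    ∃ k < M, ∃ G : Finset ι, (∀ x ∈ G, ∀ z ∈ Z x, z ≤ 1 / 2 ^ (L (a + k + 1)) ∨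
      1 / 2 ^ (L (a + k)) ≤ z) ∧ ∑ x ∈ Gᶜ, ν x ≤ (C : ℝ) / M := by
  classical
  by_contra hcon
  push Not at hcon
  set bad : ℕ → ι → Prop := fun k x => ∃ z ∈ Z x, (1 : ℝ) / 2 ^ (L (a + k + 1)) < z ∧
    z < 1 / 2 ^ (L (a + k)) with hbad
  have h1 : ∀ k < M, (C : ℝ) / M < ∑ x, (if bad k x then ν x else 0) := by
    intro k hk
    have h2 := hcon k hk (univ.filter fun x => ¬ bad k x) (by
      intro x hx z hz
      have h3 := (Finset.mem_filter.mp hx).2
      by_contra h4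
      push Not at h4
      exact h3 ⟨z, hz, h4.1, h4.2⟩)
    refine h2.trans_le (le_of_eq ?_)
    rw [Finset.compl_filter, Finset.sum_filter]
    exact Finset.sum_congr rfl fun x _ => by simp
  have h2 : ∑ _k ∈ range M, (C : ℝ) / M < ∑ k ∈ range M, ∑ x, (if bad k x then ν x else 0) :=
    Finset.sum_lt_sum_of_nonempty (by simpa using hM.ne') fun k hk => h1 k (by simpa using hk)
  have hMr : (0 : ℝ) < M := by exact_mod_cast hM
  rw [Finset.sum_const, card_range, nsmul_eq_mul, mul_div_cancel₀ _ hMr.ne', Finset.sum_comm] at h2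
  have h3 : ∑ x, ∑ k ∈ range M, (if bad k x then ν x else 0) ≤ ∑ x, ν x * C := by
    refine Finset.sum_le_sum fun x _ => ?_
    rw [← Finset.sum_filter, Finset.sum_const, nsmul_eq_mul, mul_comm]
    refine mul_le_mul_of_nonneg_left ?_ (hν x)
    have h5 := (few_bad hL (Z x) a M).trans (hZ x)
    have h6 : ((Finset.range M).filter fun k => bad k x).card ≤ C := by
      convert h5 using 2
    exact_mod_cast h6
  rw [← Finset.sum_mul, hν1, one_mul] at h3
  linarith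

variable {V : Type*} [NormedAddCommGroup V] [InnerProductSpace ℝ V] [FiniteDimensional ℝ V]

open Classical in
/-- **The average over `ν` at one scale.** -/
theorem avg {ι : Type*} [Fintype ι] {ν : ι → ℝ} (hν : ∀ j, 0 ≤ ν j) (hν1 : ∑ j, ν j = 1)
    {φ : Submodule ℝ V → ℝ} {lo hi δ e₁ e₂ e₃ β B μ : ℝ} (h0 : ∀ W, 0 ≤ φ W) (hB : φ ⊥ ≤ B)
    (hlo : lo < 1) (he₁ : 0 ≤ e₁) (he₂ : 0 ≤ e₂) (he₃ : 0 ≤ e₃) (hδ : 0 ≤ δ) (hμ0 : 0 ≤ μ)
    (hμ1 : μ ≤ 1)
    (hφ : Sbm φ lo hi e₁) {N : ℕ} {U : ℕ → Submodule ℝ V} (hN : 1 ≤ N)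
    (hU : ∀ j < N, Nmn φ (((j : ℝ) + 1) * δ) e₂ (U j)) (hb : U (N - 1) = ⊥)
    (F : ι → Submodule ℝ V) (G : Finset ι) (hG : ∑ x ∈ Gᶜ, ν x ≤ β)
    (hch : ∀ x ∈ G, ∃ A : ℕ → Submodule ℝ V, A 0 = F x ∧
      ∀ j < N, ∃ A'', Spl (A j) (U j) (A (j + 1)) A'' lo hi)
    (hμ : ∀ (U : Submodule ℝ V) (A : ι → Submodule ℝ V), (∀ x, A x ≤ F x) →
      (∀ x, ∀ v ∈ A x, dm U v ≤ lo * ‖v‖) →
      ∑ x, ν x * (finrank ℝ (A x) : ℝ) ≤ μ * finrank ℝ U + e₃) :
    (1 - μ) * φ ⊥ - (2 * δ * finrank ℝ V + N * e₂ + δ * N * e₃ + (e₁ + e₂) * finrank ℝ V +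
      β * B) ≤ ∑ x, ν x * φ (F x) := by
  classical
  choose! A hA0 hA using hch
  -- the chain, `⊥` outside `G`
  set A' : ι → ℕ → Submodule ℝ V := fun x j => if x ∈ G then A x j else ⊥ with hA'
  have hAG : ∀ x ∈ G, ∀ j, A' x j = A x j := fun x hx j => by simp only [hA', if_pos hx]
  have hAN : ∀ x, x ∉ G → ∀ j, A' x j = ⊥ := fun x hx j => by simp only [hA', if_neg hx]
  have hle : ∀ x ∈ G, ∀ j ≤ N, A x j ≤ F x := by
    intro x hx j
    induction j with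
    | zero => intro _; rw [hA0 x hx]
    | succ j ih =>
      intro hj
      obtain ⟨A'', h⟩ := hA x hx j (by omega)
      exact h.le1.trans (ih (by omega))
  have hdim : ∀ j < N, ∑ x, ν x * (finrank ℝ (A' x (j + 1)) : ℝ) ≤
      μ * finrank ℝ (U j) + e₃ := by
    intro j hj
    refine hμ (U j) (fun x => A' x (j + 1)) (fun x => ?_) (fun x v hv => ?_)
    · simp only [hA']
      split_ifs with hx
      · exact hle x hx (j + 1) (by omega)
      · exact bot_le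
    · simp only [hA'] at hv
      split_ifs at hv with hx
      · obtain ⟨A'', h⟩ := hA x hx j hj
        exact h.small v hv
      · rw [Submodule.mem_bot] at hv
        rw [hv]
        have : dm (U j) (0 : V) ≤ ‖(0 : V)‖ := dm_le_norm _ _
        simpa using this
  have hgood : ∀ x ∈ G, φ ⊥ - δ * (finrank ℝ V + ∑ j ∈ range N, (finrank ℝ (A' x (j + 1)) : ℝ)) -
      (e₁ + e₂) * finrank ℝ V ≤ φ (F x) := by
    intro x hx
    have h1 := tel_one hlo he₁ he₂ hδ hφ hN hU hb (hA x hx)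
    rw [hA0 x hx] at h1
    have hF : (finrank ℝ (F x) : ℝ) ≤ finrank ℝ V := by exact_mod_cast Submodule.finrank_le (F x)
    have h2 : ∑ j ∈ range N, (finrank ℝ (A x j) : ℝ) ≤
        finrank ℝ V + ∑ j ∈ range N, (finrank ℝ (A' x (j + 1)) : ℝ) := by
      have h3 : ∑ j ∈ range (N + 1), (finrank ℝ (A x j) : ℝ) =
          ∑ j ∈ range N, (finrank ℝ (A x (j + 1)) : ℝ) + finrank ℝ (A x 0) :=
        Finset.sum_range_succ' _ _
      have h4 : ∑ j ∈ range N, (finrank ℝ (A x j) : ℝ) ≤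
          ∑ j ∈ range (N + 1), (finrank ℝ (A x j) : ℝ) := by
        rw [Finset.sum_range_succ]
        have : (0 : ℝ) ≤ finrank ℝ (A x N) := Nat.cast_nonneg _
        linarith
      have h5 : ∑ j ∈ range N, (finrank ℝ (A x (j + 1)) : ℝ) =
          ∑ j ∈ range N, (finrank ℝ (A' x (j + 1)) : ℝ) := by
        refine Finset.sum_congr rfl fun j _ => ?_
        rw [hAG x hx]
      rw [h3, hA0 x hx, h5] at h4
      linarith
    have h3 := mul_le_mul_of_nonneg_left h2 hδ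
    have h4 : (e₁ + e₂) * (finrank ℝ (F x) : ℝ) ≤ (e₁ + e₂) * finrank ℝ V :=
      mul_le_mul_of_nonneg_left hF (by linarith)
    linarith
  have hbad : ∀ x, x ∉ G → φ ⊥ - B ≤ φ (F x) := fun x _ => by
    have := h0 (F x)
    linarith
  set E : ℝ := δ * finrank ℝ V + (e₁ + e₂) * finrank ℝ V with hE
  have hsum1 : ∀ x, ν x * (φ ⊥ - E - δ * ∑ j ∈ range N, (finrank ℝ (A' x (j + 1)) : ℝ)) -
      (if x ∈ G then 0 else ν x * B) ≤ ν x * φ (F x) := by
    intro x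
    by_cases hx : x ∈ G
    · rw [if_pos hx, sub_zero]
      refine mul_le_mul_of_nonneg_left ?_ (hν x)
      have := hgood x hx
      simp only [hE]
      linarith
    · rw [if_neg hx]
      have h2 : ∑ j ∈ range N, (finrank ℝ (A' x (j + 1)) : ℝ) = 0 := by
        refine Finset.sum_eq_zero fun j _ => ?_
        rw [hAN x hx, finrank_bot, Nat.cast_zero]
      rw [h2, mul_zero, sub_zero]
      have h3 := mul_le_mul_of_nonneg_left (hbad x hx) (hν x)
      have h4 : 0 ≤ ν x * E := by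
        have : 0 ≤ E := by simp only [hE]; positivity
        exact mul_nonneg (hν x) this
      nlinarith
  have hsum2 := Finset.sum_le_sum (s := univ) fun x _ => hsum1 x
  rw [Finset.sum_sub_distrib] at hsum2
  have e1 : ∑ x, (if x ∈ G then 0 else ν x * B) = (∑ x ∈ Gᶜ, ν x) * B := by
    rw [Finset.sum_mul, ← Finset.sum_filter_add_sum_filter_not univ (fun x => x ∈ G)]
    have a1 : ∑ x ∈ univ.filter (fun x => x ∈ G), (if x ∈ G then 0 else ν x * B) = 0 :=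
      Finset.sum_eq_zero fun x hx => by
        rw [if_pos (Finset.mem_filter.mp hx).2]
    rw [a1, zero_add]
    have a2 : univ.filter (fun x => ¬ x ∈ G) = Gᶜ := by
      ext x
      simp
    rw [a2]
    exact Finset.sum_congr rfl fun x hx => by
      rw [if_neg (by simpa using hx)]
  have e2 : ∑ x, ν x * (φ ⊥ - E - δ * ∑ j ∈ range N, (finrank ℝ (A' x (j + 1)) : ℝ)) =
      φ ⊥ - E - δ * ∑ j ∈ range N, ∑ x, ν x * (finrank ℝ (A' x (j + 1)) : ℝ) := by
    have b1 : ∀ x, ν x * (φ ⊥ - E - δ * ∑ j ∈ range N, (finrank ℝ (A' x (j + 1)) : ℝ)) =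
        (φ ⊥ - E) * ν x - δ * ∑ j ∈ range N, ν x * (finrank ℝ (A' x (j + 1)) : ℝ) := by
      intro x
      rw [← Finset.mul_sum]
      ring
    rw [Finset.sum_congr rfl fun x _ => b1 x, Finset.sum_sub_distrib, ← Finset.mul_sum,
      ← Finset.mul_sum, hν1, mul_one, Finset.sum_comm]
  have e3 : ∑ j ∈ range N, ∑ x, ν x * (finrank ℝ (A' x (j + 1)) : ℝ) ≤
      μ * ∑ j ∈ range N, (finrank ℝ (U j) : ℝ) + N * e₃ := by
    calc _ ≤ ∑ j ∈ range N, (μ * (finrank ℝ (U j) : ℝ) + e₃) :=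
          Finset.sum_le_sum fun j hj => hdim j (by simpa using hj)
      _ = _ := by
          rw [Finset.sum_add_distrib, ← Finset.mul_sum, Finset.sum_const, card_range, nsmul_eq_mul]
  have e4 := envl he₂ hδ hN hU hb (h0 (U 0))
  have e5 := mul_le_mul_of_nonneg_left e3 hδ
  have e6 := mul_le_mul_of_nonneg_left e4 hμ0
  have hB0 : 0 ≤ B := (h0 ⊥).trans hB
  have e7 : (∑ x ∈ Gᶜ, ν x) * B ≤ β * B := mul_le_mul_of_nonneg_right hG hB0
  have e8 : μ * (N * e₂ + δ * finrank ℝ V) ≤ N * e₂ + δ * finrank ℝ V :=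
    mul_le_of_le_one_left (by positivity) hμ1
  rw [e1, e2] at hsum2
  simp only [hE] at hsum2
  nlinarith

/-- **The core.** -/
theorem core (n : ℕ) {η : ℝ} (hη : 0 < η) : ∃ (I : ℕ) (ε : ℝ), 0 < ε ∧
    ∀ (φ : ℕ → Submodule ℝ (EuclideanSpace ℝ (Fin n)) → ℝ) (L : ℕ → ℕ), Monotone L → 1 ≤ L 0 →
    (∀ i W, 0 ≤ φ i W) → (∀ i i', i ≤ i' → i' ≤ I → ∀ W, φ i W ≤ φ i' W + ε) →
    (∀ i ≤ I, φ i ⊥ ≤ n + 1) →
    (∀ i, 1 ≤ i → i ≤ I → Sbm (φ i) (1 / 2 ^ (L i)) (1 / 2 ^ (L (i - 1))) ε) →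
    ∀ {ι : Type} [Fintype ι] (ν : ι → ℝ), (∀ x, 0 ≤ ν x) → ∑ x, ν x = 1 →
    ∀ (F : ι → Submodule ℝ (EuclideanSpace ℝ (Fin n))) (μ : ℝ), 0 ≤ μ → μ ≤ 1 →
    (∀ (U : Submodule ℝ (EuclideanSpace ℝ (Fin n)))
      (A : ι → Submodule ℝ (EuclideanSpace ℝ (Fin n))), (∀ x, A x ≤ F x) →
      (∀ x, ∀ v ∈ A x, dm U v ≤ 1 / 2 ^ (L 0) * ‖v‖) →
      ∑ x, ν x * (finrank ℝ (A x) : ℝ) ≤ μ * finrank ℝ U + ε) →
    ∃ i ≤ I, (1 - μ) * φ i ⊥ - η ≤ ∑ x, ν x * φ i (F x) := by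
  classical
  have hn : (0 : ℝ) ≤ n := Nat.cast_nonneg n
  have hfr : finrank ℝ (EuclideanSpace ℝ (Fin n)) = n := finrank_euclideanSpace_fin
  set δ : ℝ := η / (8 * (n + 1)) with hδ
  have hδ0 : 0 < δ := by positivity
  set N : ℕ := ⌈((n : ℝ) + 2) / δ⌉₊ + 1 with hN
  have hN1 : 1 ≤ N := by omega
  have hNδ : (n : ℝ) + 2 ≤ N * δ := by
    have h1 : ((n : ℝ) + 2) / δ ≤ N := by
      rw [hN]
      push_cast
      have := Nat.le_ceil (((n : ℝ) + 2) / δ)
      linarith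
    rwa [div_le_iff₀ hδ0] at h1
  obtain ⟨C, hC⟩ := chain (V := EuclideanSpace ℝ (Fin n)) N
  set M : ℕ := ⌈8 * ((n : ℝ) + 1) * C / η⌉₊ + 1 with hM
  have hM0 : 0 < M := by omega
  have hβ : (C : ℝ) / M * (n + 1) ≤ η / 8 := by
    have h1 : 8 * ((n : ℝ) + 1) * C / η ≤ M := by
      rw [hM]
      push_cast
      have := Nat.le_ceil (8 * ((n : ℝ) + 1) * C / η)
      linarith
    have hMr : (0 : ℝ) < M := by exact_mod_cast hM0
    rw [div_le_iff₀ hη] at h1
    rw [div_mul_eq_mul_div, div_le_iff₀ hMr]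
    nlinarith
  set e : ℝ := min (η / (8 * (N + n + 1))) (1 / 2) with he
  have he0 : 0 < e := by
    rw [he]
    refine lt_min ?_ (by norm_num)
    positivity
  set T : ℕ := ⌈2 * N * ((n : ℝ) + 1) / e⌉₊ + 1 with hT
  have hT0 : 0 < T := by omega
  have hTe : N * ((n : ℝ) + 1) / T ≤ e / 2 := by
    have h1 : 2 * N * ((n : ℝ) + 1) / e ≤ T := by
      rw [hT]
      push_cast
      have := Nat.le_ceil (2 * N * ((n : ℝ) + 1) / e)
      linarith
    have hTr : (0 : ℝ) < T := by exact_mod_cast hT0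
    rw [div_le_iff₀ he0] at h1
    rw [div_le_iff₀ hTr]
    linarith
  set ε : ℝ := min (e / (2 * (N + 3))) (min (η / (8 * (n + 1))) (η / (8 * (δ * N + 1)))) with hε
  have hε0 : 0 < ε := by
    rw [hε]
    refine lt_min (by positivity) (lt_min (by positivity) (by positivity))
  refine ⟨T * M, ε, hε0, ?_⟩
  intro φ L hL hL0 h0 hm hB hS ι _ ν hν hν1 F μ hμ0 hμ1 hμ
  obtain ⟨g, hg, U, hU⟩ := stab (T := T) (M := M) (N := N) (δ := δ) (B := (n : ℝ) + 1) (ε := ε)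
    hT0 hδ0.le hε0 (by positivity) h0 hm hB
  set e₂ : ℝ := N * ((n : ℝ) + 1) / T + (N + 3) * ε with he₂
  have he₂e : e₂ ≤ e := by
    have h1 : (N + 3 : ℝ) * ε ≤ e / 2 := by
      calc (N + 3 : ℝ) * ε ≤ (N + 3) * (e / (2 * (N + 3))) :=
            mul_le_mul_of_nonneg_left (min_le_left _ _) (by positivity)
        _ = e / 2 := by field_simp
    rw [he₂]
    linarith
  have he₂0 : 0 ≤ e₂ := by rw [he₂]; positivity
  choose Z hZc hZ using fun x => hC U (F x)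
  obtain ⟨k, hk, G, hG1, hG2⟩ := exists_scale hν hν1 hL Z hZc (g * M) hM0
  have hi1 : g * M + k + 1 ≤ (g + 1) * M := by
    rw [Nat.succ_mul]; omega
  have hiI : g * M + k + 1 ≤ T * M := hi1.trans (Nat.mul_le_mul_right _ hg)
  have hUi : ∀ j < N, Nmn (φ (g * M + k + 1)) (((j : ℝ) + 1) * δ) e₂ (U j) := fun j hj =>
    hU j hj _ (by omega) hi1
  have hb : U (N - 1) = ⊥ := by
    have h1 := hUi (N - 1) (by omega) ⊥
    have h2 := hB _ hiI
    have h3 := h0 (g * M + k + 1) (U (N - 1))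
    have h4 : ((N - 1 : ℕ) : ℝ) + 1 = N := by
      rw [Nat.cast_sub hN1]
      push_cast
      ring
    rw [h4, finrank_bot, Nat.cast_zero, mul_zero, add_zero] at h1
    have h5 : e₂ ≤ 1 / 2 := he₂e.trans (min_le_right _ _)
    by_contra hne
    have h6 : 1 ≤ finrank ℝ (U (N - 1)) := Nat.one_le_iff_ne_zero.mpr fun h => hne
      (Submodule.finrank_eq_zero.mp h)
    have h7 : (1 : ℝ) ≤ finrank ℝ (U (N - 1)) := by exact_mod_cast h6
    have h8 : (n : ℝ) + 2 ≤ N * δ * finrank ℝ (U (N - 1)) := by nlinarith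
    linarith
  have hlo : (1 : ℝ) / 2 ^ (L (g * M + k + 1)) < 1 := by
    rw [div_lt_one (by positivity)]
    refine one_lt_pow₀ (by norm_num) ?_
    have : L 0 ≤ L (g * M + k + 1) := hL (Nat.zero_le _)
    omega
  have hlo2 : (1 : ℝ) / 2 ^ (L (g * M + k + 1)) ≤ 1 / 2 ^ (L 0) :=
    one_div_le_one_div_of_le (by positivity)
      (pow_le_pow_right₀ (by norm_num) (hL (Nat.zero_le _)))
  have hSi := hS (g * M + k + 1) (by omega) hiI
  have hsub : g * M + k + 1 - 1 = g * M + k := by omega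
  rw [hsub] at hSi
  have key := avg hν hν1 (φ := φ (g * M + k + 1)) (e₁ := ε) (e₂ := e₂) (e₃ := ε)
    (β := (C : ℝ) / M) (B := (n : ℝ) + 1) (μ := μ) (h0 _) (hB _ hiI) hlo hε0.le he₂0 hε0.le
    hδ0.le hμ0 hμ1 hSi hN1 hUi hb F G hG2
    (fun x hx => by
      obtain ⟨A, hA0, hA⟩ := hZ x (1 / 2 ^ (L (g * M + k + 1))) (1 / 2 ^ (L (g * M + k)))
        (by positivity) (one_div_le_one_div_of_le (by positivity)
          (pow_le_pow_right₀ (by norm_num) (hL (by omega)))) (hG1 x hx)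
      exact ⟨A, hA0, hA⟩)
    (fun U' A hA hA' => hμ U' A hA fun x v hv => (hA' x v hv).trans
      (mul_le_mul_of_nonneg_right hlo2 (norm_nonneg _)))
  rw [hfr] at key
  refine ⟨g * M + k + 1, hiI, le_trans ?_ key⟩
  have a1 : 2 * δ * n ≤ η / 4 := by
    have : δ * (n + 1) = η / 8 := by
      rw [hδ]; field_simp
    nlinarith
  have a2 : (N : ℝ) * e₂ + e₂ * n ≤ η / 8 := by
    have h1 : e₂ ≤ η / (8 * (N + n + 1)) := he₂e.trans (min_le_left _ _)
    rw [le_div_iff₀ (by positivity)] at h1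
    nlinarith
  have a3 : δ * N * ε ≤ η / 8 := by
    have h1 : ε ≤ η / (8 * (δ * N + 1)) := (min_le_right _ _).trans (min_le_right _ _)
    rw [le_div_iff₀ (by positivity)] at h1
    nlinarith
  have a4 : ε * n ≤ η / 8 := by
    have h1 : ε ≤ η / (8 * (n + 1)) := (min_le_right _ _).trans (min_le_left _ _)
    rw [le_div_iff₀ (by positivity)] at h1
    nlinarith
  linarith

end Pool.BL
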