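import Pool.Agent.H86.BL.Phi
import Pool.Agent.H86.BL.Core

/-!
# The entropic Brascamp–Lieb inequality for a semistable family of subspaces

`X` is a random integer vector in a box of size `2 ^ K`, `F x` are subspaces with weights `ν x`,
and `Y x` are observables which determine `X` modulo `F x` up to bounded errors. If the family is
semistable of slope `μ` at the resolution `2 ^ (-κ K)`, then the average of the entropies of the
`Y x` is at least `(1 - μ) H X - η K`.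
-/

set_option autoImplicit false

namespace Pool.BL

open Finset Real Module
open Pool.Agent.H49.Ent Pool.Agent.H32.Dense

theorem H_le_add {Ω S T : Type*} [Fintype Ω] {p : Ω → ℝ} (hp : ∀ ω, 0 ≤ p ω) (A : Ω → S)
    (Z : Ω → T) : H p A ≤ H p Z + CH p A Z := by
  have h1 := H_mono hp (X := fun ω => (A ω, Z ω)) (Y := A) (fun ω ω' _ _ h => (Prod.ext_iff.mp h).1)
  unfold CH
  linarith

theorem CH_le_H {Ω S T : Type*} [Fintype Ω] {p : Ω → ℝ} (hp : ∀ ω, 0 ≤ p ω)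
    (h1 : ∑ ω, p ω = 1) (A : Ω → S) (Z : Ω → T) : CH p A Z ≤ H p A := by
  have := subadd hp h1 (X := A) (Y := Z) (W := fun ω => (A ω, Z ω)) (fun ω ω' _ _ h => h)
  unfold CH
  linarith

theorem Rd_zero {n : ℕ} (x : Fin n → ℤ) : Rd 0 x = x := by
  funext i
  simp [Rd]

/-- **(BL)** -/
theorem bl (n B : ℕ) {η : ℝ} (hη : 0 < η) : ∃ κ : ℝ, 0 < κ ∧ ∃ K₀ : ℕ, ∀ K ≥ K₀,
    ∀ {Ω : Type} [Fintype Ω] {p : Ω → ℝ}, (∀ ω, 0 ≤ p ω) → ∑ ω, p ω = 1 →
    ∀ X : Ω → (Fin n → ℤ), (∀ ω, 0 < p ω → ∀ i, |X ω i| ≤ B * 2 ^ K) →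
    ∀ {ι : Type} [Fintype ι] (ν : ι → ℝ), (∀ x, 0 ≤ ν x) → ∑ x, ν x = 1 →
    ∀ (F : ι → Submodule ℝ (EuclideanSpace ℝ (Fin n))) (S : ι → Type) (Y : ∀ x, Ω → S x),
    (∀ x, ∀ ω ω', 0 < p ω → 0 < p ω' → Y x ω = Y x ω' →
      dm (F x) (vec (X ω) - vec (X ω')) ≤ B) →
    ∀ μ : ℝ, 0 ≤ μ →
    (∀ (U : Submodule ℝ (EuclideanSpace ℝ (Fin n)))
      (A : ι → Submodule ℝ (EuclideanSpace ℝ (Fin n))), (∀ x, A x ≤ F x) →
      (∀ x, ∀ v ∈ A x, dm U v ≤ (2 : ℝ) ^ (-(κ * K)) * ‖v‖) →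
      ∑ x, ν x * (finrank ℝ (A x) : ℝ) ≤ μ * finrank ℝ U + κ) →
    (1 - μ) * H p X - η * K ≤ ∑ x, ν x * H p (Y x) := by
  have hn : (0 : ℝ) ≤ n := Nat.cast_nonneg n
  have hl2 : 0 < Real.log 2 := Real.log_pos one_lt_two
  have hl2' : Real.log 2 ≤ 1 := by
    have := Real.log_two_lt_d9
    linarith
  obtain ⟨I, ε, hε, hcore⟩ := core n (η := η / 2) (by positivity)
  set Q : ℕ := ⌈2 * n * Real.log 2 / ε⌉₊ + 1 with hQ
  have hQ0 : 0 < Q := by omega
  have hQr : (0 : ℝ) < Q := by exact_mod_cast hQ0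
  have hQε : n * Real.log 2 / Q ≤ ε / 2 := by
    have h1 : 2 * n * Real.log 2 / ε ≤ Q := by
      rw [hQ]
      push_cast
      have := Nat.le_ceil (2 * n * Real.log 2 / ε)
      linarith
    rw [div_le_iff₀ hε] at h1
    rw [div_le_iff₀ hQr]
    linarith
  set q : ℕ := Q ^ I with hq
  have hq0 : 0 < q := by positivity
  have hqr : (0 : ℝ) < q := by exact_mod_cast hq0
  -- the minimal length
  set l₁ : ℕ := ⌈(2 * c2 n + 2 * c1 n) / ε⌉₊ + n + 1 with hl₁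
  set κ : ℝ := min ε (1 / (2 * q)) with hκ
  have hκ0 : 0 < κ := lt_min hε (by positivity)
  set Cs : ℝ := n * Real.log (2 * (2 * (B * 2 ^ q + 1) : ℕ) + 1) +
    n * Real.log (2 * (B + 1 : ℕ) + 1) + q * (2 * c1 n) with hCs
  have hCs0 : 0 ≤ Cs := by
    have h1 : 0 ≤ Real.log (2 * (2 * (B * 2 ^ q + 1) : ℕ) + 1) :=
      Real.log_nonneg (by
        have : (0 : ℝ) ≤ ((2 * (B * 2 ^ q + 1) : ℕ) : ℝ) := Nat.cast_nonneg _
        linarith)
    have h2 : 0 ≤ Real.log (2 * (B + 1 : ℕ) + 1) := Real.log_nonneg (by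
        have : (0 : ℝ) ≤ ((B + 1 : ℕ) : ℝ) := Nat.cast_nonneg _
        linarith)
    have h3 := c1_nonneg n
    positivity
  refine ⟨κ, hκ0, max ((l₁ + 1) * q) ⌈2 * Cs / η⌉₊, ?_⟩
  intro K hK Ω _ p hp h1 X hX ι _ ν hν hν1 F S Y hY μ hμ0 hμ
  have hK1 : (l₁ + 1) * q ≤ K := (le_max_left _ _).trans hK
  have hK2 : Cs ≤ η / 2 * K := by
    have h2 : (⌈2 * Cs / η⌉₊ : ℝ) ≤ K := by exact_mod_cast (le_max_right _ _).trans hK
    have h3 := (Nat.le_ceil (2 * Cs / η)).trans h2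
    rw [div_le_iff₀ hη] at h3
    linarith
  -- trivial case
  have hH0 : ∀ x, 0 ≤ H p (Y x) := fun x => H_nonneg hp h1 _
  have hHX : 0 ≤ H p X := H_nonneg hp h1 _
  have hKr : (0 : ℝ) ≤ K := Nat.cast_nonneg K
  by_cases hμ1 : μ ≤ 1
  swap
  · have h2 : 0 ≤ ∑ x, ν x * H p (Y x) := Finset.sum_nonneg fun x _ => mul_nonneg (hν x) (hH0 x)
    have h3 : (1 - μ) * H p X ≤ 0 := mul_nonpos_of_nonpos_of_nonneg (by linarith) hHX
    have h4 : 0 ≤ η * K := by positivity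
    linarith
  set l₀ : ℕ := K / q with hl₀
  have hl₀1 : l₁ + 1 ≤ l₀ := (Nat.le_div_iff_mul_le hq0).mpr hK1
  have hl0 : 0 < l₀ := by omega
  have hl0r : (0 : ℝ) < l₀ := by exact_mod_cast hl0
  have hKm : l₀ * q ≤ K := Nat.div_mul_le_self K q
  have hKM : K < l₀ * q + q := by
    have h2 := Nat.lt_succ_iff.mpr (le_refl (K / q))
    have h3 := Nat.mod_lt K hq0
    have h4 := Nat.div_add_mod K q
    rw [← hl₀, Nat.mul_comm] at h4
    omega
  have hl₁r : (2 * c2 n + 2 * c1 n) / ε + n + 1 ≤ l₀ := by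
    have h2 := Nat.le_ceil ((2 * c2 n + 2 * c1 n) / ε)
    have h3 : (l₁ : ℝ) ≤ l₀ := by exact_mod_cast (Nat.le_succ l₁).trans hl₀1
    rw [hl₁] at h3
    push_cast at h3
    linarith
  have hc1 := c1_nonneg n
  have hc2 := c2_nonneg n
  have hb1 : 2 * c1 n / l₀ ≤ ε ∧ c2 n / l₀ ≤ ε / 2 := by
    have h2 : (2 * c2 n + 2 * c1 n) / ε ≤ l₀ := by linarith
    rw [div_le_iff₀ hε] at h2
    constructor
    · rw [div_le_iff₀ hl0r]
      linarith
    · rw [div_le_iff₀ hl0r]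
      linarith
  have hb2 : n * Real.log 2 / l₀ ≤ 1 := by
    rw [div_le_one hl0r]
    have h2 : 0 ≤ (2 * c2 n + 2 * c1 n) / ε := by positivity
    nlinarith
  have hmono : Monotone fun i => l₀ * Q ^ i := fun i j hij =>
    Nat.mul_le_mul_left _ (Nat.pow_le_pow_right hQ0 hij)
  have hK' : (0 : ℝ) < (l₀ * Q ^ I : ℕ) := by
    have : 0 < l₀ * Q ^ I := by positivity
    exact_mod_cast this
  obtain ⟨i, hi, hmain⟩ := hcore (phi p X l₀ Q I) (fun i => l₀ * Q ^ i) hmono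
    (by rw [pow_zero, mul_one]; exact hl0) (fun i W => phi_nonneg hp X i W)
    (fun i i' h h' W => (phi_mono hp h1 X hl0 hQ0 h h' W).trans (by linarith [hb1.1]))
    (fun i hi => (phi_bot_le hp h1 X hl0 hQ0 hi).trans (by nlinarith))
    (fun i hi1 hi A B A' A'' h => (phi_sbm hp h1 X hl0 hQ0 hi1 hi A B A' A'' h).trans
      (by linarith [hb1.2])) ν hν hν1 F μ hμ0 hμ1
    (fun U A hA hA' => by
      refine (hμ U A hA fun x v hv => (hA' x v hv).trans
        (mul_le_mul_of_nonneg_right ?_ (norm_nonneg _))).trans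
        (add_le_add le_rfl (min_le_left _ _))
      have h2 : κ * K ≤ l₀ := by
        have h3 : κ ≤ 1 / (2 * q) := min_le_right _ _
        have h4 : (K : ℝ) ≤ 2 * q * l₀ := by
          have h5 : (K : ℝ) ≤ l₀ * q + q := by exact_mod_cast hKM.le
          have h6 : (1 : ℝ) ≤ l₀ := by exact_mod_cast hl0
          nlinarith
        calc κ * K ≤ 1 / (2 * q) * (2 * q * l₀) := mul_le_mul h3 h4 hKr (by positivity)
          _ = l₀ := by field_simp
      have h3 : (1 : ℝ) / 2 ^ (l₀ * Q ^ 0) = (2 : ℝ) ^ (-(l₀ : ℝ)) := by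
        rw [pow_zero, mul_one, Real.rpow_neg (by norm_num), Real.rpow_natCast, one_div]
      rw [h3]
      exact Real.rpow_le_rpow_of_exponent_le (by norm_num) (by linarith))
  -- the lower end
  have hq' : (q : ℕ) = Q ^ I := rfl
  have hHR : H p (fun ω => Rd (l₀ * Q ^ I) (X ω)) ≤
      n * Real.log (2 * (2 * (B * 2 ^ q + 1) : ℕ) + 1) := by
    have h2 := H_le_add hp (fun ω => Rd (l₀ * Q ^ I) (X ω)) (fun _ : Ω => ())
    rw [H_const h1] at h2
    have h3 : CH p (fun ω => Rd (l₀ * Q ^ I) (X ω)) (fun _ : Ω => ()) ≤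
        n * Real.log (2 * (2 * (B * 2 ^ q + 1) : ℕ) + 1) := by
      refine ch_box hp h1 _ _ (2 * (B * 2 ^ q + 1)) fun ω ω' hω hω' _ i => ?_
      have key : ∀ ω, 0 < p ω → |Rd (l₀ * Q ^ I) (X ω) i| ≤ ((B * 2 ^ q + 1 : ℕ) : ℤ) := by
        intro ω hω
        have h4 := hX ω hω i
        set y := X ω i with hy
        have hpw : (0 : ℤ) < 2 ^ (l₀ * Q ^ I) := by positivity
        have e1 := Int.emod_add_mul_ediv y (2 ^ (l₀ * Q ^ I))
        have n1 := Int.emod_nonneg y hpw.ne'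
        have l1 := Int.emod_lt_of_pos y hpw
        have h5 : (2 : ℤ) ^ K ≤ 2 ^ q * 2 ^ (l₀ * Q ^ I) := by
          rw [← pow_add]
          refine pow_le_pow_right₀ (by norm_num) ?_
          rw [← hq']
          omega
        have h6 : (B : ℤ) * 2 ^ K ≤ B * 2 ^ q * 2 ^ (l₀ * Q ^ I) := by
          calc (B : ℤ) * 2 ^ K ≤ B * (2 ^ q * 2 ^ (l₀ * Q ^ I)) :=
                mul_le_mul_of_nonneg_left h5 (Int.natCast_nonneg B)
            _ = _ := by ring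
        change |y / 2 ^ (l₀ * Q ^ I)| ≤ _
        rw [abs_le] at h4 ⊢
        push_cast
        constructor
        · by_contra hcon
          push Not at hcon
          have h7 : y / 2 ^ (l₀ * Q ^ I) + 1 ≤ -(B * 2 ^ q + 1) := by linarith
          nlinarith
        · by_contra hcon
          push Not at hcon
          have h7 : (B : ℤ) * 2 ^ q + 1 + 1 ≤ y / 2 ^ (l₀ * Q ^ I) := by linarith
          nlinarith
      have k1 := key ω hω
      have k2 := key ω' hω'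
      calc |Rd (l₀ * Q ^ I) (X ω) i - Rd (l₀ * Q ^ I) (X ω') i| ≤
            |Rd (l₀ * Q ^ I) (X ω) i| + |Rd (l₀ * Q ^ I) (X ω') i| := abs_sub _ _
        _ ≤ _ := by push_cast at k1 k2 ⊢; linarith
    linarith
  have hXe : H p X ≤ H p (fun ω => Rd (l₀ * Q ^ I) (X ω)) + cb p X ⊥ 0 (l₀ * Q ^ I) := by
    have h2 := H_le_add hp X (fun ω => Rd (l₀ * Q ^ I) (X ω))
    have h3 : (fun ω => Md ⊥ 0 (X ω)) = X := by
      funext ω
      rw [Md_bot, Rd_zero]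
    unfold cb
    rw [h3]
    exact h2
  have hYe : ∀ x, phi p X l₀ Q I i (F x) * (l₀ * Q ^ I : ℕ) ≤
      H p (Y x) + (n * Real.log (2 * (B + 1 : ℕ) + 1) + q * (2 * c1 n)) := by
    intro x
    have h2 := phi_le_top hp h1 X hl0 hQ0 hi (F x)
    have h3 : cb p X (F x) 0 (l₀ * Q ^ I) ≤ H p (fun ω => Md (F x) 0 (X ω)) := CH_le_H hp h1 _ _
    have h4 := H_le_add hp (fun ω => Md (F x) 0 (X ω)) (Y x)
    have h5 : CH p (fun ω => Md (F x) 0 (X ω)) (Y x) ≤ n * Real.log (2 * (B + 1 : ℕ) + 1) := by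
      refine ch_near hp h1 X (F x) (D := B) fun ω ω' hω hω' hz => ?_
      simpa using hY x ω ω' hω hω' hz
    linarith
  have hsum : (∑ x, ν x * phi p X l₀ Q I i (F x)) * (l₀ * Q ^ I : ℕ) ≤
      (∑ x, ν x * H p (Y x)) + (n * Real.log (2 * (B + 1 : ℕ) + 1) + q * (2 * c1 n)) := by
    rw [Finset.sum_mul]
    calc ∑ x, ν x * phi p X l₀ Q I i (F x) * (l₀ * Q ^ I : ℕ) ≤
          ∑ x, (ν x * H p (Y x) + ν x * (n * Real.log (2 * (B + 1 : ℕ) + 1) + q * (2 * c1 n))) := by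
          refine Finset.sum_le_sum fun x _ => ?_
          have := mul_le_mul_of_nonneg_left (hYe x) (hν x)
          linarith
      _ = _ := by rw [Finset.sum_add_distrib, ← Finset.sum_mul, hν1, one_mul]
  have h8 := mul_le_mul_of_nonneg_right hmain hK'.le
  have h9 := top_le_phi hp X hl0 hQ0 hi (n := n)
  have h10 : ((l₀ * Q ^ I : ℕ) : ℝ) ≤ K := by
    rw [← hq']
    exact_mod_cast hKm
  have hR0 : 0 ≤ H p (fun ω => Rd (l₀ * Q ^ I) (X ω)) := H_nonneg hp h1 _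
  have h11 : (1 - μ) * H p X ≤ H p (fun ω => Rd (l₀ * Q ^ I) (X ω)) +
      (1 - μ) * (phi p X l₀ Q I i ⊥ * (l₀ * Q ^ I : ℕ)) := by
    have h12 : (1 - μ) * H p X ≤ (1 - μ) * (H p (fun ω => Rd (l₀ * Q ^ I) (X ω)) +
        phi p X l₀ Q I i ⊥ * (l₀ * Q ^ I : ℕ)) :=
      mul_le_mul_of_nonneg_left (hXe.trans (add_le_add le_rfl h9)) (by linarith)
    have h13 : (1 - μ) * H p (fun ω => Rd (l₀ * Q ^ I) (X ω)) ≤
        H p (fun ω => Rd (l₀ * Q ^ I) (X ω)) := mul_le_of_le_one_left hR0 (by linarith)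
    linarith
  have h14 : η / 2 * ((l₀ * Q ^ I : ℕ) : ℝ) ≤ η / 2 * K :=
    mul_le_mul_of_nonneg_left h10 (by positivity)
  rw [hCs] at hK2
  linarith

end Pool.BL
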