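import Pool.Agent.H86.BL.Ent

/-!
# Blocks of digits
-/

set_option autoImplicit false

namespace Pool.BL

open Finset Real Module
open Pool.Agent.H49.Ent Pool.Agent.H32.Dense

variable {Ω T : Type*} [Fintype Ω] {n : ℕ}

/-- The entropy of the digits `a, …, b` modulo `W`. -/
noncomputable def cb (p : Ω → ℝ) (X : Ω → (Fin n → ℤ))
    (W : Submodule ℝ (EuclideanSpace ℝ (Fin n))) (a b : ℕ) : ℝ :=
  CH p (fun ω => Md W a (X ω)) (fun ω => Rd b (X ω))

/-- The constant of rounding. -/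
noncomputable def c1 (n : ℕ) : ℝ := n * Real.log (2 * (n + 1 : ℕ) + 1)

theorem c1_nonneg (n : ℕ) : 0 ≤ c1 n := by
  unfold c1
  refine mul_nonneg (Nat.cast_nonneg n) (Real.log_nonneg ?_)
  have : (0 : ℝ) ≤ (n + 1 : ℕ) := Nat.cast_nonneg _
  linarith

variable {p : Ω → ℝ} (hp : ∀ ω, 0 ≤ p ω) (h1 : ∑ ω, p ω = 1) (X : Ω → (Fin n → ℤ))
  (W : Submodule ℝ (EuclideanSpace ℝ (Fin n)))

include hp in
theorem cb_nonneg (a b : ℕ) : 0 ≤ cb p X W a b := CH_nonneg hp _ _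

include hp h1 in
theorem ch_near {Z : Ω → T} {b D : ℕ} (h : ∀ ω ω', 0 < p ω → 0 < p ω' → Z ω = Z ω' →
    dm W (vec (X ω) - vec (X ω')) ≤ D * 2 ^ b) :
    CH p (fun ω => Md W b (X ω)) Z ≤ n * Real.log (2 * (D + 1 : ℕ) + 1) := by
  refine ch_box hp h1 _ Z (D + 1) fun ω ω' hω hω' hz i => ?_
  exact Md_near (h ω ω' hω hω' hz) i

include hp h1 in
theorem cb_sup {a b c : ℕ} (hab : a ≤ b) (hbc : b ≤ c) :
    cb p X W a b + cb p X W b c ≤ cb p X W a c + 2 * c1 n := by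
  have e1 := CH_chain hp (fun ω => Md W b (X ω)) (fun ω => Md W a (X ω)) (fun ω => Rd c (X ω))
  have e2 := CH_chain hp (fun ω => Md W a (X ω)) (fun ω => Md W b (X ω)) (fun ω => Rd c (X ω))
  have e3 : CH p (fun ω => (Md W b (X ω), Md W a (X ω))) (fun ω => Rd c (X ω)) =
      CH p (fun ω => (Md W a (X ω), Md W b (X ω))) (fun ω => Rd c (X ω)) := by
    refine CH_congr hp ?_ ?_ (fun _ _ _ _ h => h) (fun _ _ _ _ h => h)
    · intro ω ω' _ _ h
      simp only [Prod.mk.injEq] at h ⊢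
      exact ⟨h.1.2, h.1.1⟩
    · intro ω ω' _ _ h
      simp only [Prod.mk.injEq] at h ⊢
      exact ⟨h.1.2, h.1.1⟩
  have e4 : CH p (fun ω => Md W b (X ω)) (fun ω => (Md W a (X ω), Rd c (X ω))) ≤ c1 n := by
    refine ch_near hp h1 X W (D := n) fun ω ω' _ _ hz => ?_
    have h2 := dm_of_Md (Prod.ext_iff.mp hz).1
    refine h2.trans (mul_le_mul_of_nonneg_left ?_ (Nat.cast_nonneg n))
    exact pow_le_pow_right₀ (by norm_num) hab
  have e5 : CH p (fun ω => Md W a (X ω)) (fun ω => (Md W b (X ω), Rd b (X ω))) ≤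
      CH p (fun ω => Md W a (X ω)) (fun ω => (Md W b (X ω), Rd c (X ω))) := by
    refine CH_mono_cond hp fun ω ω' _ _ h => ?_
    simp only [Prod.mk.injEq] at h ⊢
    exact ⟨h.1, Rd_mono hbc h.2⟩
  have e6 := CH_le_add hp (fun ω => Md W a (X ω)) (fun ω => Md W b (X ω)) (fun ω => Rd b (X ω))
  have e7 : CH p (fun ω => Md W b (X ω)) (fun ω => Rd b (X ω)) ≤ c1 n := by
    refine ch_near hp h1 X W (D := n) fun ω ω' _ _ hz => ?_
    exact (dm_le_norm _ _).trans (norm_of_Rd hz)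
  unfold cb
  linarith

include hp in
theorem cb_bot_sub {a b c : ℕ} : cb p X ⊥ a c ≤ cb p X ⊥ a b + cb p X ⊥ b c := by
  have e1 := CH_le_add hp (fun ω => Md ⊥ a (X ω)) (fun ω => Md ⊥ b (X ω)) (fun ω => Rd c (X ω))
  have e2 : CH p (fun ω => Md ⊥ a (X ω)) (fun ω => (Md ⊥ b (X ω), Rd c (X ω))) ≤
      CH p (fun ω => Md ⊥ a (X ω)) (fun ω => Rd b (X ω)) := by
    refine CH_mono_cond hp fun ω ω' _ _ h => ?_
    simp only [Prod.mk.injEq, Md_bot] at h
    exact h.1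
  unfold cb
  linarith

include hp in
theorem cb_bot_self (a : ℕ) : cb p X ⊥ a a = 0 := by
  unfold cb
  refine CH_eq_zero hp fun ω ω' _ _ h => ?_
  simp only [Md_bot]
  exact h

include hp h1 in
theorem cb_bot_le {a b : ℕ} (hab : a ≤ b) :
    cb p X ⊥ a b ≤ n * Real.log 2 * ((b : ℝ) - a) + n * Real.log 2 := by
  obtain ⟨r, rfl⟩ := Nat.exists_eq_add_of_le hab
  unfold cb
  have h2 : CH p (fun ω => Md ⊥ a (X ω)) (fun ω => Rd (a + r) (X ω)) ≤
      n * Real.log (2 * (2 ^ r - 1 : ℕ) + 1) := by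
    refine ch_box hp h1 _ _ (2 ^ r - 1) fun ω ω' _ _ hz i => ?_
    rw [Md_bot, Md_bot]
    have h3 : X ω i / 2 ^ (a + r) = X ω' i / 2 ^ (a + r) := congrFun hz i
    have e : ∀ z : ℤ, z / 2 ^ (a + r) = z / 2 ^ a / 2 ^ r := fun z => by
      rw [pow_add, Int.ediv_ediv_of_nonneg (by positivity)]
    rw [e, e] at h3
    have hpw : (0 : ℤ) < 2 ^ r := by positivity
    have e1 := Int.emod_add_mul_ediv (X ω i / 2 ^ a) (2 ^ r)
    have e2 := Int.emod_add_mul_ediv (X ω' i / 2 ^ a) (2 ^ r)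
    have n1 := Int.emod_nonneg (X ω i / 2 ^ a) hpw.ne'
    have n2 := Int.emod_nonneg (X ω' i / 2 ^ a) hpw.ne'
    have l1 := Int.emod_lt_of_pos (X ω i / 2 ^ a) hpw
    have l2 := Int.emod_lt_of_pos (X ω' i / 2 ^ a) hpw
    rw [h3] at e1
    unfold Rd
    have h4 : ((2 ^ r - 1 : ℕ) : ℤ) = 2 ^ r - 1 := by
      rw [Nat.cast_sub Nat.one_le_two_pow]
      push_cast
      rfl
    rw [h4, abs_le]
    constructor <;> linarith
  refine h2.trans ?_
  have h3 : Real.log (2 * (2 ^ r - 1 : ℕ) + 1) ≤ Real.log 2 * r + Real.log 2 := by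
    have h4 : ((2 ^ r - 1 : ℕ) : ℝ) = 2 ^ r - 1 := by
      rw [Nat.cast_sub Nat.one_le_two_pow]
      push_cast
      rfl
    rw [h4]
    have h5 : (1 : ℝ) ≤ 2 ^ r := one_le_pow₀ (by norm_num)
    calc Real.log (2 * (2 ^ r - 1) + 1) ≤ Real.log (2 ^ r * 2) :=
          Real.log_le_log (by linarith) (by linarith)
      _ = Real.log 2 * r + Real.log 2 := by
          rw [Real.log_mul (by positivity) (by norm_num), Real.log_pow]
          ring
  have h5 : ((a + r : ℕ) : ℝ) - a = r := by push_cast; ring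
  rw [h5]
  calc (n : ℝ) * Real.log (2 * (2 ^ r - 1 : ℕ) + 1) ≤ n * (Real.log 2 * r + Real.log 2) :=
        mul_le_mul_of_nonneg_left h3 (Nat.cast_nonneg n)
    _ = _ := by ring

end Pool.BL
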