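import Pool.Agent.H86.BL.Tel
import Pool.Agent.H32.Dense.EntX

/-!
# Entropies of a point modulo subspaces, digit by digit
-/

set_option autoImplicit false

namespace Pool.BL

open Finset Real Module
open Pool.Agent.H49.Ent Pool.Agent.H32.Dense

variable {Ω S T : Type*} [Fintype Ω] {n : ℕ}

/-- Integer vectors as vectors of the Euclidean space. -/
noncomputable def vec (x : Fin n → ℤ) : EuclideanSpace ℝ (Fin n) :=
  WithLp.toLp 2 (fun i => (x i : ℝ))

theorem vec_apply (x : Fin n → ℤ) (i : Fin n) : vec x i = (x i : ℝ) := rfl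

theorem abs_le_norm (u : EuclideanSpace ℝ (Fin n)) (i : Fin n) : |u i| ≤ ‖u‖ := by
  have := PiLp.norm_apply_le u i
  rwa [Real.norm_eq_abs] at this

theorem norm_le_of_abs {u : EuclideanSpace ℝ (Fin n)} {D : ℝ} (hD : 0 ≤ D)
    (h : ∀ i, |u i| ≤ D) : ‖u‖ ≤ n * D := by
  have h1 : ‖u‖ ^ 2 ≤ (n * D) ^ 2 := by
    rw [EuclideanSpace.real_norm_sq_eq]
    calc ∑ i, u i ^ 2 ≤ ∑ _i : Fin n, D ^ 2 := Finset.sum_le_sum fun i _ => by
          rw [← sq_abs]
          exact pow_le_pow_left₀ (abs_nonneg _) (h i) 2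
      _ = n * D ^ 2 := by simp
      _ ≤ (n * D) ^ 2 := by
          rcases Nat.eq_zero_or_pos n with h0 | h0
          · subst h0; simp
          · have : (1 : ℝ) ≤ n := by exact_mod_cast h0
            rw [mul_pow]
            exact mul_le_mul_of_nonneg_right (by nlinarith) (sq_nonneg _)
  exact le_of_sq_le_sq h1 (by positivity)

/-- The digits of `x` modulo `W` above the level `k`. -/
noncomputable def Md (W : Submodule ℝ (EuclideanSpace ℝ (Fin n))) (k : ℕ) (x : Fin n → ℤ)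
    (i : Fin n) : ℤ :=
  ⌊(vec x - W.starProjection (vec x)) i / 2 ^ k⌋

/-- The digits of `x` above the level `k`. -/
def Rd (k : ℕ) (x : Fin n → ℤ) (i : Fin n) : ℤ := x i / 2 ^ k

variable {W : Submodule ℝ (EuclideanSpace ℝ (Fin n))}

theorem dm_sub (x y : Fin n → ℤ) : dm W (vec x - vec y) =
    ‖(vec x - W.starProjection (vec x)) - (vec y - W.starProjection (vec y))‖ := by
  rw [dm, map_sub]
  congr 1
  abel

theorem dm_of_Md {k : ℕ} {x y : Fin n → ℤ} (h : Md W k x = Md W k y) :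
    dm W (vec x - vec y) ≤ n * 2 ^ k := by
  rw [dm_sub]
  refine norm_le_of_abs (by positivity) fun i => ?_
  have h1 := Int.abs_sub_lt_one_of_floor_eq_floor (congrFun h i)
  rw [← sub_div, abs_div, abs_of_pos (by positivity : (0 : ℝ) < 2 ^ k),
    div_lt_one (by positivity)] at h1
  exact h1.le

theorem Md_near {k : ℕ} {x y : Fin n → ℤ} {D : ℕ} (h : dm W (vec x - vec y) ≤ D * 2 ^ k)
    (i : Fin n) : |Md W k x i - Md W k y i| ≤ ((D + 1 : ℕ) : ℤ) := by
  rw [dm_sub] at h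
  have h1 := (abs_le_norm _ i).trans h
  have h2 : |(vec x - W.starProjection (vec x)) i / 2 ^ k -
      (vec y - W.starProjection (vec y)) i / 2 ^ k| ≤ D := by
    rw [← sub_div, abs_div, abs_of_pos (by positivity : (0 : ℝ) < 2 ^ k),
      div_le_iff₀ (by positivity)]
    exact h1
  have a1 := Int.floor_le ((vec x - W.starProjection (vec x)) i / 2 ^ k)
  have a2 := Int.lt_floor_add_one ((vec x - W.starProjection (vec x)) i / 2 ^ k)
  have b1 := Int.floor_le ((vec y - W.starProjection (vec y)) i / 2 ^ k)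
  have b2 := Int.lt_floor_add_one ((vec y - W.starProjection (vec y)) i / 2 ^ k)
  rw [abs_le] at h2
  have h3 : (Md W k x i : ℝ) - Md W k y i ≤ D + 1 := by
    unfold Md; linarith
  have h4 : -((D : ℝ) + 1) ≤ (Md W k x i : ℝ) - Md W k y i := by
    unfold Md; linarith
  rw [abs_le]
  constructor
  · have : ((-((D + 1 : ℕ) : ℤ) : ℤ) : ℝ) ≤ ((Md W k x i - Md W k y i : ℤ) : ℝ) := by
      push_cast; linarith
    exact_mod_cast this
  · have : ((Md W k x i - Md W k y i : ℤ) : ℝ) ≤ (((D + 1 : ℕ) : ℤ) : ℝ) := by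
      push_cast; linarith
    exact_mod_cast this

theorem norm_of_Rd {k : ℕ} {x y : Fin n → ℤ} (h : Rd k x = Rd k y) :
    ‖vec x - vec y‖ ≤ n * 2 ^ k := by
  refine norm_le_of_abs (by positivity) fun i => ?_
  have h1 : x i / 2 ^ k = y i / 2 ^ k := congrFun h i
  have hp : (0 : ℤ) < 2 ^ k := by positivity
  have e1 := Int.emod_add_mul_ediv (x i) (2 ^ k)
  have e2 := Int.emod_add_mul_ediv (y i) (2 ^ k)
  have n1 := Int.emod_nonneg (x i) hp.ne'
  have n2 := Int.emod_nonneg (y i) hp.ne'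
  have l1 := Int.emod_lt_of_pos (x i) hp
  have l2 := Int.emod_lt_of_pos (y i) hp
  rw [h1] at e1
  have h3 : |x i - y i| ≤ 2 ^ k := by
    rw [abs_le]
    constructor <;> linarith
  have h4 : ((|x i - y i| : ℤ) : ℝ) ≤ ((2 ^ k : ℤ) : ℝ) := by exact_mod_cast h3
  push_cast at h4
  exact h4

theorem Rd_mono {k m : ℕ} (h : k ≤ m) {x y : Fin n → ℤ} (hx : Rd k x = Rd k y) :
    Rd m x = Rd m y := by
  funext i
  have h1 : x i / 2 ^ k = y i / 2 ^ k := congrFun hx i
  obtain ⟨r, rfl⟩ := Nat.exists_eq_add_of_le h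
  have e : ∀ z : ℤ, z / 2 ^ (k + r) = z / 2 ^ k / 2 ^ r := fun z => by
    rw [pow_add, Int.ediv_ediv_of_nonneg (by positivity)]
  unfold Rd
  rw [e, e, h1]

theorem Md_bot (k : ℕ) (x : Fin n → ℤ) : Md (⊥ : Submodule ℝ (EuclideanSpace ℝ (Fin n))) k x =
    Rd k x := by
  funext i
  have h3 := Submodule.starProjection_apply_mem
    (⊥ : Submodule ℝ (EuclideanSpace ℝ (Fin n))) (vec x)
  rw [Submodule.mem_bot] at h3
  unfold Md Rd
  rw [h3, sub_zero, vec_apply]
  rw [Int.floor_eq_iff]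
  have hp : (0 : ℤ) < 2 ^ k := by positivity
  have e1 := Int.emod_add_mul_ediv (x i) (2 ^ k)
  have n1 := Int.emod_nonneg (x i) hp.ne'
  have l1 := Int.emod_lt_of_pos (x i) hp
  constructor
  · rw [le_div_iff₀ (by positivity)]
    have h4 : x i / 2 ^ k * 2 ^ k ≤ x i := by nlinarith
    have h5 : ((x i / 2 ^ k * 2 ^ k : ℤ) : ℝ) ≤ ((x i : ℤ) : ℝ) := Int.cast_le.mpr h4
    rw [Int.cast_mul, Int.cast_pow, Int.cast_ofNat] at h5
    exact h5
  · rw [div_lt_iff₀ (by positivity)]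
    have h4 : x i < (x i / 2 ^ k + 1) * 2 ^ k := by nlinarith
    have h5 : ((x i : ℤ) : ℝ) < (((x i / 2 ^ k + 1) * 2 ^ k : ℤ) : ℝ) := Int.cast_lt.mpr h4
    rw [Int.cast_mul, Int.cast_pow, Int.cast_ofNat, Int.cast_add, Int.cast_one] at h5
    exact h5

/-- Counting the values of an integer vector in a box. -/
theorem ch_box {p : Ω → ℝ} (hp : ∀ ω, 0 ≤ p ω) (h1 : ∑ ω, p ω = 1) (Y : Ω → (Fin n → ℤ))
    (Z : Ω → T) (D : ℕ) (h : ∀ ω ω', 0 < p ω → 0 < p ω' → Z ω = Z ω' →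
      ∀ i, |Y ω i - Y ω' i| ≤ (D : ℤ)) : CH p Y Z ≤ n * Real.log (2 * D + 1) := by
  classical
  set F : T → Finset (Fin n → ℤ) := fun z =>
    if hz : ∃ ω, 0 < p ω ∧ Z ω = z then
      Fintype.piFinset fun i => Finset.Icc (Y hz.choose i - D) (Y hz.choose i + D) else ∅ with hF
  have hc : ∀ ω, 0 < p ω → ((F (Z ω)).card : ℝ) = (2 * D + 1) ^ n := by
    intro ω hω
    have hz : ∃ ω', 0 < p ω' ∧ Z ω' = Z ω := ⟨ω, hω, rfl⟩
    simp only [hF, dif_pos hz]
    rw [Fintype.card_piFinset]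
    have : ∀ i : Fin n, (Finset.Icc (Y hz.choose i - (D : ℤ)) (Y hz.choose i + D)).card =
        2 * D + 1 := by
      intro i
      rw [Int.card_Icc]
      have : Y hz.choose i + (D : ℤ) + 1 - (Y hz.choose i - D) = ((2 * D + 1 : ℕ) : ℤ) := by
        push_cast; ring
      rw [this, Int.toNat_natCast]
    rw [Finset.prod_congr rfl fun i _ => this i]
    simp
  have h2 := CH_le_card hp h1 Y Z F (by
    intro ω hω
    have hz : ∃ ω', 0 < p ω' ∧ Z ω' = Z ω := ⟨ω, hω, rfl⟩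
    simp only [hF, dif_pos hz]
    rw [Fintype.mem_piFinset]
    intro i
    rw [Finset.mem_Icc]
    have h3 := h ω hz.choose hω hz.choose_spec.1 hz.choose_spec.2.symm i
    rw [abs_le] at h3
    constructor <;> linarith [h3.1, h3.2])
  refine h2.trans ?_
  refine (Ex_mono hp (g := fun _ => n * Real.log (2 * D + 1)) fun ω hω => ?_).trans
    (Ex_const h1 _).le
  rw [hc ω hω, Real.log_pow]

end Pool.BL
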