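import Pool.Agent.H86.BL.Tel

/-!
# Stable scales
-/

set_option autoImplicit false

namespace Pool.BL

open Module Submodule Finset

variable {V : Type*} [NormedAddCommGroup V] [InnerProductSpace ℝ V] [FiniteDimensional ℝ V]

/-- The minimum of `φ + s dim`. -/
noncomputable def gm (φ : Submodule ℝ V → ℝ) (s : ℝ) : ℝ :=
  ⨅ W : Submodule ℝ V, (φ W + s * finrank ℝ W)

theorem gm_le {φ : Submodule ℝ V → ℝ} {s : ℝ} (h0 : ∀ W, 0 ≤ φ W) (hs : 0 ≤ s)
    (W : Submodule ℝ V) : gm φ s ≤ φ W + s * finrank ℝ W :=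
  ciInf_le ⟨0, by
    rintro _ ⟨W, rfl⟩
    have := h0 W
    positivity⟩ W

theorem gm_nonneg {φ : Submodule ℝ V → ℝ} {s : ℝ} (h0 : ∀ W, 0 ≤ φ W) (hs : 0 ≤ s) :
    0 ≤ gm φ s :=
  le_ciInf fun W => by
    have := h0 W
    positivity

theorem gm_mono {φ ψ : Submodule ℝ V → ℝ} {s ε : ℝ} (h0 : ∀ W, 0 ≤ φ W) (hs : 0 ≤ s)
    (h : ∀ W, φ W ≤ ψ W + ε) : gm φ s ≤ gm ψ s + ε := by
  have : gm φ s - ε ≤ gm ψ s := le_ciInf fun W => by
    have h1 := gm_le h0 hs W
    have h2 := h W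
    linarith
  linarith

/-- **Stable scales.** -/
theorem stab {φ : ℕ → Submodule ℝ V → ℝ} {T M N : ℕ} {δ B ε : ℝ} (hT : 0 < T) (hδ : 0 ≤ δ)
    (hε : 0 < ε) (hB0 : 0 ≤ B) (h0 : ∀ i W, 0 ≤ φ i W)
    (hm : ∀ i i', i ≤ i' → i' ≤ T * M → ∀ W, φ i W ≤ φ i' W + ε)
    (hB : ∀ i, i ≤ T * M → φ i ⊥ ≤ B) :
    ∃ g < T, ∃ U : ℕ → Submodule ℝ V, ∀ j < N, ∀ i, g * M ≤ i → i ≤ (g + 1) * M →
      Nmn (φ i) (((j : ℝ) + 1) * δ) (N * B / T + (N + 3) * ε) (U j) := by
  set G : ℕ → ℕ → ℝ := fun i j => gm (φ i) (((j : ℝ) + 1) * δ) with hG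
  have hs : ∀ j : ℕ, 0 ≤ ((j : ℝ) + 1) * δ := fun j => by positivity
  have hG1 : ∀ i j, i ≤ T * M → G i j ≤ B := fun i j hi => by
    have := gm_le (h0 i) (hs j) ⊥
    rw [finrank_bot] at this
    simp only [Nat.cast_zero, mul_zero, add_zero] at this
    exact this.trans (hB i hi)
  have hG0 : ∀ i j, 0 ≤ G i j := fun i j => gm_nonneg (h0 i) (hs j)
  have hGm : ∀ i i' j, i ≤ i' → i' ≤ T * M → G i j ≤ G i' j + ε := fun i i' j h1 h2 =>
    gm_mono (h0 i) (hs j) (hm i i' h1 h2)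
  set S : ℕ → ℝ := fun g => ∑ j ∈ range N, G (g * M) j with hS
  have hTr : (0 : ℝ) < T := by exact_mod_cast hT
  obtain ⟨g, hg, hgS⟩ : ∃ g < T, S (g + 1) - S g ≤ N * B / T := by
    by_contra hcon
    push Not at hcon
    have h1 : ∑ g ∈ range T, (S (g + 1) - S g) = S T - S 0 := Finset.sum_range_sub S T
    have h2 : ∑ _g ∈ range T, (N * B / T : ℝ) < ∑ g ∈ range T, (S (g + 1) - S g) :=
      Finset.sum_lt_sum_of_nonempty (by simpa using hT.ne') fun g hg => hcon g (by simpa using hg)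
    rw [h1, Finset.sum_const, card_range, nsmul_eq_mul, mul_div_cancel₀ _ hTr.ne'] at h2
    have h3 : S T ≤ N * B := by
      calc S T ≤ ∑ _j ∈ range N, B := Finset.sum_le_sum fun j _ => hG1 _ j le_rfl
        _ = N * B := by simp
    have h4 : 0 ≤ S 0 := Finset.sum_nonneg fun j _ => hG0 _ j
    linarith
  have hgT : (g + 1) * M ≤ T * M := Nat.mul_le_mul_right _ hg
  have hgg : g * M ≤ (g + 1) * M := Nat.mul_le_mul_right _ (Nat.le_succ g)
  have hj : ∀ j < N, G ((g + 1) * M) j ≤ G (g * M) j + N * B / T + N * ε := by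
    intro j hj
    have hjm : j ∈ range N := by simpa using hj
    have e1 : S (g + 1) - S g = (G ((g + 1) * M) j - G (g * M) j) +
        ∑ j' ∈ (range N).erase j, (G ((g + 1) * M) j' - G (g * M) j') := by
      rw [Finset.add_sum_erase (range N) (fun j' => G ((g + 1) * M) j' - G (g * M) j') hjm,
        Finset.sum_sub_distrib]
    have e2 : -(N * ε) ≤ ∑ j' ∈ (range N).erase j, (G ((g + 1) * M) j' - G (g * M) j') := by
      have h5 : ∑ _j' ∈ (range N).erase j, (-ε) ≤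
          ∑ j' ∈ (range N).erase j, (G ((g + 1) * M) j' - G (g * M) j') :=
        Finset.sum_le_sum fun j' _ => by
          have := hGm (g * M) ((g + 1) * M) j' hgg hgT
          linarith
      rw [Finset.sum_const, nsmul_eq_mul] at h5
      have h6 : (((range N).erase j).card : ℝ) ≤ N := by
        have := Finset.card_le_card (Finset.erase_subset j (range N))
        rw [card_range] at this
        exact_mod_cast this
      have h7 : -((N : ℝ) * ε) ≤ (((range N).erase j).card : ℝ) * -ε := by nlinarith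
      linarith
    linarith
  have hU : ∀ j : ℕ, ∃ U : Submodule ℝ V, φ ((g + 1) * M) U + ((j : ℝ) + 1) * δ * finrank ℝ U ≤
      G ((g + 1) * M) j + ε := by
    intro j
    obtain ⟨U, hU⟩ := exists_lt_of_ciInf_lt (f := fun W : Submodule ℝ V =>
      φ ((g + 1) * M) W + ((j : ℝ) + 1) * δ * finrank ℝ W) (a := G ((g + 1) * M) j + ε)
      (by simp only [hG, gm]; linarith)
    exact ⟨U, hU.le⟩
  choose U hU using hU
  refine ⟨g, hg, U, fun j hjN i hi1 hi2 W => ?_⟩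
  have a1 := hm i ((g + 1) * M) hi2 hgT (U j)
  have a2 := hU j
  have a3 := hj j hjN
  have a4 := gm_le (h0 (g * M)) (hs j) W
  have a5 := hm (g * M) i hi1 (hi2.trans hgT) W
  have a6 : G (g * M) j = gm (φ (g * M)) (((j : ℝ) + 1) * δ) := rfl
  linarith

end Pool.BL
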