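import Pool.Agent.H86.BL.Sbm
import Pool.Agent.H86.BL.Stab

/-!
# The entropies of the blocks of a given length
-/

set_option autoImplicit false

namespace Pool.BL

open Finset Real Module
open Pool.Agent.H49.Ent Pool.Agent.H32.Dense

variable {Ω T : Type*} [Fintype Ω] {n : ℕ}

/-- `q` blocks of length `l` above the level `a`. -/
noncomputable def blk (p : Ω → ℝ) (X : Ω → (Fin n → ℤ)) (l q a : ℕ)
    (W : Submodule ℝ (EuclideanSpace ℝ (Fin n))) : ℝ :=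
  ∑ j ∈ range q, cb p X W (a + j * l) (a + (j + 1) * l)

variable {p : Ω → ℝ} (hp : ∀ ω, 0 ≤ p ω) (h1 : ∑ ω, p ω = 1) (X : Ω → (Fin n → ℤ))

include hp in
theorem blk_nonneg (l q a : ℕ) (W : Submodule ℝ (EuclideanSpace ℝ (Fin n))) :
    0 ≤ blk p X l q a W := Finset.sum_nonneg fun _ _ => cb_nonneg hp X W _ _

include hp h1 in
theorem blk_le (l q a : ℕ) (W : Submodule ℝ (EuclideanSpace ℝ (Fin n))) :
    blk p X l q a W ≤ cb p X W a (a + q * l) + q * (2 * c1 n) := by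
  induction q with
  | zero =>
    unfold blk
    simp only [range_zero, sum_empty, Nat.zero_mul, add_zero, Nat.cast_zero, zero_mul]
    exact cb_nonneg hp X W _ _
  | succ q ih =>
    unfold blk at ih ⊢
    rw [Finset.sum_range_succ]
    have h2 := cb_sup hp h1 X W (a := a) (b := a + q * l) (c := a + (q + 1) * l)
      (by omega) (Nat.add_le_add_left (Nat.mul_le_mul_right _ (Nat.le_succ q)) _)
    push_cast
    linarith

include hp in
theorem le_blk_bot (l q a : ℕ) : cb p X ⊥ a (a + q * l) ≤ blk p X l q a ⊥ := by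
  induction q with
  | zero =>
    unfold blk
    simp only [range_zero, sum_empty, Nat.zero_mul, add_zero]
    exact (cb_bot_self hp X a).le
  | succ q ih =>
    unfold blk at ih ⊢
    rw [Finset.sum_range_succ]
    have h2 := cb_bot_sub hp X (a := a) (b := a + q * l) (c := a + (q + 1) * l)
    linarith

theorem blk_split (l q r a : ℕ) (W : Submodule ℝ (EuclideanSpace ℝ (Fin n))) :
    blk p X l (q * r) a W = ∑ j ∈ range q, blk p X l r (a + j * (r * l)) W := by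
  induction q with
  | zero => simp [blk]
  | succ q ih =>
    rw [Finset.sum_range_succ, ← ih]
    unfold blk
    rw [Nat.succ_mul, Finset.sum_range_add]
    congr 1
    refine Finset.sum_congr rfl fun j _ => ?_
    congr 1 <;> ring

include hp h1 in
theorem blk_mono (l q r : ℕ) (W : Submodule ℝ (EuclideanSpace ℝ (Fin n))) :
    blk p X l (q * r) 0 W ≤ blk p X (r * l) q 0 W + q * r * (2 * c1 n) := by
  rw [blk_split]
  calc ∑ j ∈ range q, blk p X l r (0 + j * (r * l)) W ≤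
        ∑ j ∈ range q, (cb p X W (0 + j * (r * l)) (0 + (j + 1) * (r * l)) + r * (2 * c1 n)) := by
        refine Finset.sum_le_sum fun j _ => ?_
        have := blk_le hp h1 X l r (0 + j * (r * l)) W
        have e : 0 + j * (r * l) + r * l = 0 + (j + 1) * (r * l) := by ring
        rwa [e] at this
    _ = _ := by
        rw [Finset.sum_add_distrib, Finset.sum_const, card_range, nsmul_eq_mul]
        unfold blk
        ring

include hp h1 in
theorem blk_bot_le (l q : ℕ) :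
    blk p X l q 0 ⊥ ≤ q * (n * Real.log 2 * l + n * Real.log 2) := by
  unfold blk
  calc ∑ j ∈ range q, cb p X ⊥ (0 + j * l) (0 + (j + 1) * l) ≤
        ∑ _j ∈ range q, (n * Real.log 2 * l + n * Real.log 2) := by
        refine Finset.sum_le_sum fun j _ => ?_
        have h2 := cb_bot_le hp h1 X (a := 0 + j * l) (b := 0 + (j + 1) * l)
          (Nat.add_le_add_left (Nat.mul_le_mul_right _ (Nat.le_succ j)) _)
        refine h2.trans (le_of_eq ?_)
        push_cast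
        ring
    _ = _ := by rw [Finset.sum_const, card_range, nsmul_eq_mul]

include hp h1 in
theorem blk_sbm {A B A' A'' : Submodule ℝ (EuclideanSpace ℝ (Fin n))} {l x : ℕ} (q : ℕ)
    (h : Spl A B A' A'' (1 / 2 ^ l) (1 / 2 ^ x)) :
    blk p X l q 0 A' + blk p X l q 0 (A'' ⊔ B) ≤
      blk p X l q 0 A + blk p X l q 0 B + q * (c2 n + n * Real.log 2 * x) := by
  unfold blk
  rw [← Finset.sum_add_distrib, ← Finset.sum_add_distrib]
  have : (q : ℝ) * (c2 n + n * Real.log 2 * x) =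
      ∑ _j ∈ range q, (c2 n + n * Real.log 2 * x) := by
    rw [Finset.sum_const, card_range, nsmul_eq_mul]
  rw [this, ← Finset.sum_add_distrib]
  refine Finset.sum_le_sum fun j _ => ?_
  have h2 := cb_sbm hp h1 X (k := 0 + j * l) h
  have e : 0 + j * l + l = 0 + (j + 1) * l := by ring
  rw [e] at h2
  exact h2

/-- The normalised entropies: blocks of length `l₀ Q ^ i` in `l₀ Q ^ I`. -/
noncomputable def phi (p : Ω → ℝ) (X : Ω → (Fin n → ℤ)) (l₀ Q I i : ℕ)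
    (W : Submodule ℝ (EuclideanSpace ℝ (Fin n))) : ℝ :=
  blk p X (l₀ * Q ^ i) (Q ^ (I - i)) 0 W / (l₀ * Q ^ I : ℕ)

variable {l₀ Q I : ℕ}

include hp in
theorem phi_nonneg (i : ℕ) (W : Submodule ℝ (EuclideanSpace ℝ (Fin n))) :
    0 ≤ phi p X l₀ Q I i W := div_nonneg (blk_nonneg hp X _ _ _ _) (Nat.cast_nonneg _)

theorem num_le {a i I l₀ Q : ℕ} (hl : 0 < l₀) (hQ : 0 < Q) (hi : i ≤ I) {c : ℝ} (hc : 0 ≤ c)
    (ha : a = Q ^ (I - i)) : (a : ℝ) * c / (l₀ * Q ^ I : ℕ) ≤ c / l₀ := by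
  have h1 : (l₀ * Q ^ I : ℕ) = l₀ * (Q ^ (I - i) * Q ^ i) := by
    rw [← pow_add, Nat.sub_add_cancel hi]
  have hQr : (0 : ℝ) < Q := by exact_mod_cast hQ
  have hlr : (0 : ℝ) < l₀ := by exact_mod_cast hl
  rw [h1, ha]
  push_cast
  rw [div_le_div_iff₀ (by positivity) hlr]
  have h2 : (1 : ℝ) ≤ (Q : ℝ) ^ i := one_le_pow₀ (by exact_mod_cast hQ)
  have h3 : 0 ≤ c * l₀ * (Q : ℝ) ^ (I - i) := by positivity
  nlinarith

include hp h1 in
theorem phi_mono (hl : 0 < l₀) (hQ : 0 < Q) {i i' : ℕ} (h : i ≤ i') (h' : i' ≤ I)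
    (W : Submodule ℝ (EuclideanSpace ℝ (Fin n))) :
    phi p X l₀ Q I i W ≤ phi p X l₀ Q I i' W + 2 * c1 n / l₀ := by
  have e1 : Q ^ (I - i) = Q ^ (I - i') * Q ^ (i' - i) := by
    rw [← pow_add]; congr 1; omega
  have e2 : l₀ * Q ^ i' = Q ^ (i' - i) * (l₀ * Q ^ i) := by
    have : Q ^ i' = Q ^ (i' - i) * Q ^ i := by rw [← pow_add]; congr 1; omega
    rw [this]; ring
  have h2 := blk_mono hp h1 X (l₀ * Q ^ i) (Q ^ (I - i')) (Q ^ (i' - i)) W
  rw [← e1, ← e2] at h2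
  have h3 := num_le (a := Q ^ (I - i)) hl hQ (h.trans h') (c := 2 * c1 n)
    (by have := c1_nonneg n; positivity) rfl
  unfold phi
  have hK : (0 : ℝ) < (l₀ * Q ^ I : ℕ) := by
    have : 0 < l₀ * Q ^ I := by positivity
    exact_mod_cast this
  calc blk p X (l₀ * Q ^ i) (Q ^ (I - i)) 0 W / (l₀ * Q ^ I : ℕ) ≤
        (blk p X (l₀ * Q ^ i') (Q ^ (I - i')) 0 W +
          ((Q ^ (I - i) : ℕ) : ℝ) * (2 * c1 n)) / (l₀ * Q ^ I : ℕ) := by
        refine div_le_div_of_nonneg_right (h2.trans (le_of_eq ?_)) hK.le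
        rw [e1]
        push_cast
        ring
    _ = blk p X (l₀ * Q ^ i') (Q ^ (I - i')) 0 W / (l₀ * Q ^ I : ℕ) +
          ((Q ^ (I - i) : ℕ) : ℝ) * (2 * c1 n) / (l₀ * Q ^ I : ℕ) := add_div _ _ _
    _ ≤ _ := by linarith

include hp h1 in
theorem phi_bot_le (hl : 0 < l₀) (hQ : 0 < Q) {i : ℕ} (hi : i ≤ I) :
    phi p X l₀ Q I i ⊥ ≤ n * Real.log 2 + n * Real.log 2 / l₀ := by
  have h2 := blk_bot_le hp h1 X (l₀ * Q ^ i) (Q ^ (I - i))
  have h3 := num_le (a := Q ^ (I - i)) hl hQ hi (c := n * Real.log 2)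
    (by have := Real.log_nonneg (one_le_two (α := ℝ)); positivity) rfl
  unfold phi
  have hKn : 0 < l₀ * Q ^ I := by positivity
  have hK : (0 : ℝ) < (l₀ * Q ^ I : ℕ) := by exact_mod_cast hKn
  have e1 : (((Q ^ (I - i) : ℕ) : ℝ)) * ((l₀ * Q ^ i : ℕ) : ℝ) = (l₀ * Q ^ I : ℕ) := by
    have : Q ^ (I - i) * (l₀ * Q ^ i) = l₀ * Q ^ I := by
      have : Q ^ I = Q ^ (I - i) * Q ^ i := by rw [← pow_add, Nat.sub_add_cancel hi]
      rw [this]; ring
    exact_mod_cast this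
  calc blk p X (l₀ * Q ^ i) (Q ^ (I - i)) 0 ⊥ / (l₀ * Q ^ I : ℕ) ≤
        ((n * Real.log 2) * (l₀ * Q ^ I : ℕ) +
          ((Q ^ (I - i) : ℕ) : ℝ) * (n * Real.log 2)) / (l₀ * Q ^ I : ℕ) := by
        refine div_le_div_of_nonneg_right (h2.trans (le_of_eq ?_)) hK.le
        rw [← e1]
        ring
    _ = n * Real.log 2 + ((Q ^ (I - i) : ℕ) : ℝ) * (n * Real.log 2) / (l₀ * Q ^ I : ℕ) := by
        rw [add_div, mul_div_assoc, div_self hK.ne', mul_one]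
    _ ≤ _ := by linarith

include hp h1 in
theorem phi_sbm (hl : 0 < l₀) (hQ : 0 < Q) {i : ℕ} (hi1 : 1 ≤ i) (hi : i ≤ I) :
    Sbm (phi p X l₀ Q I i) (1 / 2 ^ (l₀ * Q ^ i)) (1 / 2 ^ (l₀ * Q ^ (i - 1)))
      (c2 n / l₀ + n * Real.log 2 / Q) := by
  intro A B A' A'' h
  have h2 := blk_sbm hp h1 X (Q ^ (I - i)) h
  have h3 := num_le (a := Q ^ (I - i)) hl hQ hi (c := c2 n) (c2_nonneg n) rfl
  have hKn : 0 < l₀ * Q ^ I := by positivity
  have hK : (0 : ℝ) < (l₀ * Q ^ I : ℕ) := by exact_mod_cast hKn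
  have hQr : (0 : ℝ) < Q := by exact_mod_cast hQ
  have e1 : (((Q ^ (I - i) : ℕ) : ℝ)) * ((l₀ * Q ^ (i - 1) : ℕ) : ℝ) =
      ((l₀ * Q ^ I : ℕ) : ℝ) / Q := by
    rw [eq_div_iff hQr.ne']
    have : Q ^ (I - i) * (l₀ * Q ^ (i - 1)) * Q = l₀ * Q ^ I := by
      have : Q ^ I = Q ^ (I - i) * (Q ^ (i - 1) * Q) := by
        rw [← pow_succ, ← pow_add]; congr 1; omega
      rw [this]; ring
    exact_mod_cast this
  unfold phi
  rw [← add_div, ← add_div]
  have h4 : (((Q ^ (I - i) : ℕ) : ℝ) * (c2 n + n * Real.log 2 * ((l₀ * Q ^ (i - 1) : ℕ) : ℝ))) /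
      (l₀ * Q ^ I : ℕ) ≤ c2 n / l₀ + n * Real.log 2 / Q := by
    have e2 : ((Q ^ (I - i) : ℕ) : ℝ) * (c2 n + n * Real.log 2 * ((l₀ * Q ^ (i - 1) : ℕ) : ℝ)) =
        ((Q ^ (I - i) : ℕ) : ℝ) * c2 n + n * Real.log 2 / Q * (l₀ * Q ^ I : ℕ) := by
      calc _ = ((Q ^ (I - i) : ℕ) : ℝ) * c2 n + n * Real.log 2 *
            ((((Q ^ (I - i) : ℕ) : ℝ)) * ((l₀ * Q ^ (i - 1) : ℕ) : ℝ)) := by ring
        _ = _ := by rw [e1]; ring
    rw [e2, add_div, mul_div_assoc (n * Real.log 2 / (Q : ℝ)), div_self hK.ne', mul_one]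
    linarith
  calc (blk p X (l₀ * Q ^ i) (Q ^ (I - i)) 0 A' + blk p X (l₀ * Q ^ i) (Q ^ (I - i)) 0 (A'' ⊔ B)) /
        (l₀ * Q ^ I : ℕ) ≤ (blk p X (l₀ * Q ^ i) (Q ^ (I - i)) 0 A +
          blk p X (l₀ * Q ^ i) (Q ^ (I - i)) 0 B +
          ((Q ^ (I - i) : ℕ) : ℝ) * (c2 n + n * Real.log 2 * ((l₀ * Q ^ (i - 1) : ℕ) : ℝ))) /
          (l₀ * Q ^ I : ℕ) := div_le_div_of_nonneg_right h2 hK.le
    _ = _ := add_div _ _ _
    _ ≤ _ := by linarith

include hp h1 in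
/-- Comparison with the data: lower end. -/
theorem phi_le_top (hl : 0 < l₀) (hQ : 0 < Q) {i : ℕ} (hi : i ≤ I)
    (W : Submodule ℝ (EuclideanSpace ℝ (Fin n))) :
    phi p X l₀ Q I i W * (l₀ * Q ^ I : ℕ) ≤
      cb p X W 0 (l₀ * Q ^ I) + (Q ^ I : ℕ) * (2 * c1 n) := by
  have h2 := blk_le hp h1 X (l₀ * Q ^ i) (Q ^ (I - i)) 0 W
  have hKn : 0 < l₀ * Q ^ I := by positivity
  have hK : (0 : ℝ) < (l₀ * Q ^ I : ℕ) := by exact_mod_cast hKn
  unfold phi
  rw [div_mul_cancel₀ _ hK.ne']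
  have e1 : 0 + Q ^ (I - i) * (l₀ * Q ^ i) = l₀ * Q ^ I := by
    have : Q ^ I = Q ^ (I - i) * Q ^ i := by rw [← pow_add, Nat.sub_add_cancel hi]
    rw [this]; ring
  rw [e1] at h2
  refine h2.trans (add_le_add le_rfl (mul_le_mul_of_nonneg_right ?_ ?_))
  · have : Q ^ (I - i) ≤ Q ^ I := Nat.pow_le_pow_right hQ (Nat.sub_le I i)
    exact_mod_cast this
  · have := c1_nonneg n
    positivity

include hp in
theorem top_le_phi (hl : 0 < l₀) (hQ : 0 < Q) {i : ℕ} (hi : i ≤ I) :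
    cb p X ⊥ 0 (l₀ * Q ^ I) ≤ phi p X l₀ Q I i ⊥ * (l₀ * Q ^ I : ℕ) := by
  have h2 := le_blk_bot hp X (l₀ * Q ^ i) (Q ^ (I - i)) 0
  have hKn : 0 < l₀ * Q ^ I := by positivity
  have hK : (0 : ℝ) < (l₀ * Q ^ I : ℕ) := by exact_mod_cast hKn
  unfold phi
  rw [div_mul_cancel₀ _ hK.ne']
  have e1 : 0 + Q ^ (I - i) * (l₀ * Q ^ i) = l₀ * Q ^ I := by
    have : Q ^ I = Q ^ (I - i) * Q ^ i := by rw [← pow_add, Nat.sub_add_cancel hi]
    rw [this]; ring
  rw [e1] at h2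
  exact h2

end Pool.BL
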