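import Pool.Agent.H86.BL.Blk

/-!
# Submodularity in a block
-/

set_option autoImplicit false

namespace Pool.BL

open Finset Real Module
open Pool.Agent.H49.Ent Pool.Agent.H32.Dense

variable {Ω T : Type*} [Fintype Ω] {n : ℕ}

theorem norm_starProj_le {V : Type*} [NormedAddCommGroup V] [InnerProductSpace ℝ V]
    [FiniteDimensional ℝ V] (A : Submodule ℝ V) (z : V) : ‖A.starProjection z‖ ≤ ‖z‖ := by
  have h1 := Submodule.norm_sq_eq_add_norm_sq_starProjection z A
  have h2 : ‖A.starProjection z‖ ^ 2 ≤ ‖z‖ ^ 2 := by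
    have := sq_nonneg ‖Aᗮ.starProjection z‖
    linarith
  exact le_of_sq_le_sq h2 (norm_nonneg _)

/-- The geometry of a splitting. -/
theorem geo {V : Type*} [NormedAddCommGroup V] [InnerProductSpace ℝ V] [FiniteDimensional ℝ V]
    {A B A' A'' : Submodule ℝ V} {lo hi : ℝ} (hlo : 0 ≤ lo) (hhi : 0 < hi)
    (h : Spl A B A' A'' lo hi) (z : V) {R r : ℝ} (hr : 0 ≤ r) (hz : ‖z‖ ≤ R) (hR : lo * R ≤ r)
    (hA : dm A z ≤ r) :
    dm (A'' ⊔ B) z ≤ 2 * r ∧ (dm B z ≤ r → dm A' z ≤ 3 * r / hi + r) := by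
  set al := A.starProjection z with hal
  set e := z - al with he
  have hmem : al ∈ A := Submodule.starProjection_apply_mem A z
  obtain ⟨v', hv', v'', hv'', hv, hn⟩ := h.dec al hmem
  have hze : z = v' + v'' + e := by rw [← hv, he]; abel
  have he1 : ‖e‖ ≤ r := hA
  have hn2 : ‖v'‖ ≤ R := hn.trans ((norm_starProj_le A z).trans hz)
  have hB1 : dm B v' ≤ r :=
    (h.small v' hv').trans ((mul_le_mul_of_nonneg_left hn2 hlo).trans hR)
  constructor
  · have h1 : dm (A'' ⊔ B) z ≤ dm (A'' ⊔ B) v' + dm (A'' ⊔ B) v'' + dm (A'' ⊔ B) e := by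
      rw [hze]
      exact (dm_add _ _ _).trans (add_le_add (dm_add _ _ _) le_rfl)
    have h2 : dm (A'' ⊔ B) v' ≤ dm B v' := dm_mono le_sup_right v'
    have h3 : dm (A'' ⊔ B) v'' = 0 := dm_mem (Submodule.mem_sup_left hv'')
    have h4 : dm (A'' ⊔ B) e ≤ ‖e‖ := dm_le_norm _ _
    linarith
  · intro hBz
    have h5 : v'' = z + -v' + -e := by rw [hze]; abel
    have h6 : dm B v'' ≤ 3 * r := by
      have h7 : dm B v'' ≤ dm B z + dm B (-v') + dm B (-e) := by
        conv_lhs => rw [h5]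
        exact (dm_add _ _ _).trans (add_le_add (dm_add _ _ _) le_rfl)
      rw [dm_neg, dm_neg] at h7
      have h8 : dm B e ≤ ‖e‖ := dm_le_norm _ _
      linarith
    have h7 : ‖v''‖ ≤ 3 * r / hi := by
      rw [le_div_iff₀ hhi, mul_comm]
      exact (h.big v'' hv'').trans h6
    have h1 : dm A' z ≤ dm A' v' + dm A' v'' + dm A' e := by
      rw [hze]
      exact (dm_add _ _ _).trans (add_le_add (dm_add _ _ _) le_rfl)
    have h2 : dm A' v' = 0 := dm_mem hv'
    have h3 : dm A' v'' ≤ ‖v''‖ := dm_le_norm _ _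
    have h4 : dm A' e ≤ ‖e‖ := dm_le_norm _ _
    linarith

/-- The constant of submodularity. -/
noncomputable def c2 (n : ℕ) : ℝ :=
  n * Real.log (2 * (n + 1 : ℕ) + 1) + n * Real.log (2 * (2 * n + 1 : ℕ) + 1) +
    n * Real.log (8 * n + 3)

theorem c2_nonneg (n : ℕ) : 0 ≤ c2 n := by
  have hn : (0 : ℝ) ≤ n := Nat.cast_nonneg n
  unfold c2
  have h1 : 0 ≤ Real.log (2 * (n + 1 : ℕ) + 1) := Real.log_nonneg (by push_cast; linarith)
  have h2 : 0 ≤ Real.log (2 * (2 * n + 1 : ℕ) + 1) := Real.log_nonneg (by push_cast; linarith)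
  have h3 : 0 ≤ Real.log (8 * n + 3) := Real.log_nonneg (by linarith)
  positivity

variable {p : Ω → ℝ} (hp : ∀ ω, 0 ≤ p ω) (h1 : ∑ ω, p ω = 1) (X : Ω → (Fin n → ℤ))

include hp h1 in
theorem cb_sbm {A B A' A'' : Submodule ℝ (EuclideanSpace ℝ (Fin n))} {l x k : ℕ}
    (h : Spl A B A' A'' (1 / 2 ^ l) (1 / 2 ^ x)) :
    cb p X A' k (k + l) + cb p X (A'' ⊔ B) k (k + l) ≤
      cb p X A k (k + l) + cb p X B k (k + l) + (c2 n + n * Real.log 2 * x) := by
  set W := A'' ⊔ B with hW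
  have hn : (0 : ℝ) ≤ n := Nat.cast_nonneg n
  have hk : (0 : ℝ) < 2 ^ k := by positivity
  have hl : (0 : ℝ) < 2 ^ l := by positivity
  have hx : (0 : ℝ) < 2 ^ x := by positivity
  have hR : (1 : ℝ) / 2 ^ l * (n * 2 ^ (k + l)) ≤ n * 2 ^ k := by
    rw [pow_add]
    field_simp
    exact le_rfl
  have g1 : CH p (fun ω => Md W k (X ω)) (fun ω => (Md B k (X ω), Rd (k + l) (X ω))) ≤
      n * Real.log (2 * (n + 1 : ℕ) + 1) := by
    refine ch_near hp h1 X W (D := n) fun ω ω' _ _ hz => ?_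
    exact (dm_mono le_sup_right _).trans (dm_of_Md (Prod.ext_iff.mp hz).1)
  have g2 : CH p (fun ω => Md W k (X ω)) (fun ω => (Md A k (X ω), Rd (k + l) (X ω))) ≤
      n * Real.log (2 * (2 * n + 1 : ℕ) + 1) := by
    refine ch_near hp h1 X W (D := 2 * n) fun ω ω' _ _ hz => ?_
    have hz1 := Prod.ext_iff.mp hz
    have := (geo (by positivity) (by positivity) h (vec (X ω) - vec (X ω'))
      (by positivity) (norm_of_Rd hz1.2) hR (dm_of_Md hz1.1)).1
    refine this.trans (le_of_eq ?_)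
    push_cast
    ring
  have g3 : CH p (fun ω => Md A' k (X ω))
      (fun ω => ((Md A k (X ω), Md B k (X ω)), Rd (k + l) (X ω))) ≤
      n * Real.log (8 * n + 3) + n * Real.log 2 * x := by
    have h2 : CH p (fun ω => Md A' k (X ω))
        (fun ω => ((Md A k (X ω), Md B k (X ω)), Rd (k + l) (X ω))) ≤
        n * Real.log (2 * (4 * n * 2 ^ x + 1 : ℕ) + 1) := by
      refine ch_near hp h1 X A' (D := 4 * n * 2 ^ x) fun ω ω' _ _ hz => ?_
      have hz1 := Prod.ext_iff.mp hz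
      have hz2 := Prod.ext_iff.mp hz1.1
      have := (geo (by positivity) (by positivity) h (vec (X ω) - vec (X ω'))
        (by positivity) (norm_of_Rd hz1.2) hR (dm_of_Md hz2.1)).2 (dm_of_Md hz2.2)
      refine this.trans ?_
      have h3 : (1 : ℝ) ≤ 2 ^ x := one_le_pow₀ (by norm_num)
      have h4 : 3 * ((n : ℝ) * 2 ^ k) / (1 / 2 ^ x) = 3 * n * 2 ^ x * 2 ^ k := by
        field_simp
      rw [h4]
      push_cast
      have h5 : (n : ℝ) * 2 ^ k ≤ n * 2 ^ x * 2 ^ k := by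
        refine mul_le_mul_of_nonneg_right ?_ hk.le
        exact le_mul_of_one_le_right hn h3
      nlinarith
    refine h2.trans ?_
    have h3 : Real.log (2 * (4 * n * 2 ^ x + 1 : ℕ) + 1) ≤ Real.log (8 * n + 3) + Real.log 2 * x := by
      have h4 : (1 : ℝ) ≤ 2 ^ x := one_le_pow₀ (by norm_num)
      calc Real.log (2 * (4 * n * 2 ^ x + 1 : ℕ) + 1) ≤ Real.log ((8 * n + 3) * 2 ^ x) := by
            refine Real.log_le_log (by positivity) ?_
            push_cast
            nlinarith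
        _ = Real.log (8 * n + 3) + Real.log 2 * x := by
            rw [Real.log_mul (by positivity) (by positivity), Real.log_pow]
            ring
    calc (n : ℝ) * Real.log (2 * (4 * n * 2 ^ x + 1 : ℕ) + 1) ≤
          n * (Real.log (8 * n + 3) + Real.log 2 * x) := mul_le_mul_of_nonneg_left h3 hn
      _ = _ := by ring
  set R : Ω → (Fin n → ℤ) := fun ω => Rd (k + l) (X ω) with hRd
  set Y : Ω → (Fin n → ℤ) := fun ω => Md A k (X ω) with hY
  set Y' : Ω → (Fin n → ℤ) := fun ω => Md B k (X ω) with hY'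
  set Z : Ω → (Fin n → ℤ) := fun ω => Md W k (X ω) with hZ
  set Q : Ω → (Fin n → ℤ) := fun ω => Md A' k (X ω) with hQ
  have a1 := CH_le_add hp Q (fun ω => (Y ω, Y' ω)) R
  have a2 : CH p (fun ω => (Y ω, Y' ω)) R ≤ CH p (fun ω => ((Y ω, Y' ω), Z ω)) R :=
    CH_mono_left hp (fun ω ω' _ _ hh => by
      simp only [Prod.mk.injEq] at hh ⊢
      exact hh.1.1)
  have a3 := CH_chain hp (fun ω => (Y ω, Y' ω)) Z R
  have a4 := CH_subadd hp Y Y' (fun ω => (Z ω, R ω))
  have a5 := CH_chain hp Y Z R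
  have a6 := CH_chain hp Y' Z R
  have a7 := CH_chain hp Z Y R
  have a8 := CH_chain hp Z Y' R
  have a9 : CH p (fun ω => (Y ω, Z ω)) R = CH p (fun ω => (Z ω, Y ω)) R := by
    refine CH_congr hp ?_ ?_ (fun _ _ _ _ h => h) (fun _ _ _ _ h => h) <;>
    · intro ω ω' _ _ h
      simp only [Prod.mk.injEq] at h ⊢
      exact ⟨h.1.2, h.1.1⟩
  have a10 : CH p (fun ω => (Y' ω, Z ω)) R = CH p (fun ω => (Z ω, Y' ω)) R := by
    refine CH_congr hp ?_ ?_ (fun _ _ _ _ h => h) (fun _ _ _ _ h => h) <;>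
    · intro ω ω' _ _ h
      simp only [Prod.mk.injEq] at h ⊢
      exact ⟨h.1.2, h.1.1⟩
  unfold cb c2
  linarith

end Pool.BL
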