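import Pool.Agent.H86.BL.Ang

/-!
# Telescoping along the chain of small-angle parts
-/

set_option autoImplicit false

namespace Pool.BL

open Module Submodule

variable {V : Type*} [NormedAddCommGroup V] [InnerProductSpace ℝ V] [FiniteDimensional ℝ V]

/-- Submodularity up to `e`. -/
def Sbm (φ : Submodule ℝ V → ℝ) (lo hi e : ℝ) : Prop :=
  ∀ A B A' A'' : Submodule ℝ V, Spl A B A' A'' lo hi → φ A' + φ (A'' ⊔ B) ≤ φ A + φ B + e

/-- `U` minimises `φ + s dim` up to `e`. -/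
def Nmn (φ : Submodule ℝ V → ℝ) (s e : ℝ) (U : Submodule ℝ V) : Prop :=
  ∀ W : Submodule ℝ V, φ U + s * finrank ℝ U ≤ φ W + s * finrank ℝ W + e

theorem tel_step {φ : Submodule ℝ V → ℝ} {lo hi s e₁ e₂ : ℝ} (he₁ : 0 ≤ e₁) (he₂ : 0 ≤ e₂)
    (hs : 0 ≤ s) (hφ : Sbm φ lo hi e₁) {U A A' A'' : Submodule ℝ V} (hU : Nmn φ s e₂ U)
    (h : Spl A U A' A'' lo hi) :
    φ A' - (s + e₁ + e₂) * ((finrank ℝ A : ℝ) - finrank ℝ A') ≤ φ A := by
  have h1 := hφ A U A' A'' h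
  have h2 := hU (A'' ⊔ U)
  have h3 : finrank ℝ (A'' ⊔ U : Submodule ℝ V) ≤ finrank ℝ A'' + finrank ℝ U :=
    Submodule.finrank_add_le_finrank_add_finrank A'' U
  have h4 : (finrank ℝ A' : ℝ) + finrank ℝ A'' = finrank ℝ A := by exact_mod_cast h.dim
  have h5 : (finrank ℝ (A'' ⊔ U : Submodule ℝ V) : ℝ) ≤ finrank ℝ A'' + finrank ℝ U := by
    exact_mod_cast h3
  by_cases hd : finrank ℝ A'' = 0
  · have h6 : finrank ℝ A' = finrank ℝ A := by
      have := h.dim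
      omega
    have h7 : A' = A := Submodule.eq_of_le_of_finrank_eq h.le1 h6
    rw [h7]
    simp
  · have h6 : (1 : ℝ) ≤ finrank ℝ A'' := by
      have : 1 ≤ finrank ℝ A'' := Nat.one_le_iff_ne_zero.mpr hd
      exact_mod_cast this
    have h7 : (finrank ℝ A : ℝ) - finrank ℝ A' = finrank ℝ A'' := by linarith
    rw [h7]
    have h8 : s * (finrank ℝ (A'' ⊔ U : Submodule ℝ V) : ℝ) ≤
        s * (finrank ℝ A'' + finrank ℝ U) := mul_le_mul_of_nonneg_left h5 hs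
    have h9 : e₁ ≤ e₁ * finrank ℝ A'' := le_mul_of_one_le_right he₁ h6
    have h10 : e₂ ≤ e₂ * finrank ℝ A'' := le_mul_of_one_le_right he₂ h6
    nlinarith

theorem abel (d : ℕ → ℝ) (N : ℕ) :
    ∑ j ∈ Finset.range N, ((j : ℝ) + 1) * (d j - d (j + 1)) =
      ∑ j ∈ Finset.range N, d j - N * d N := by
  induction N with
  | zero => simp
  | succ N ih =>
    rw [Finset.sum_range_succ, Finset.sum_range_succ, ih]
    push_cast
    ring

theorem tel_one {φ : Submodule ℝ V → ℝ} {lo hi δ e₁ e₂ : ℝ} (hlo : lo < 1) (he₁ : 0 ≤ e₁)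
    (he₂ : 0 ≤ e₂) (hδ : 0 ≤ δ) (hφ : Sbm φ lo hi e₁) {N : ℕ} {U A : ℕ → Submodule ℝ V}
    (hN : 1 ≤ N) (hU : ∀ j < N, Nmn φ (((j : ℝ) + 1) * δ) e₂ (U j)) (hb : U (N - 1) = ⊥)
    (h : ∀ j < N, ∃ A'', Spl (A j) (U j) (A (j + 1)) A'' lo hi) :
    φ ⊥ - δ * ∑ j ∈ Finset.range N, (finrank ℝ (A j) : ℝ) - (e₁ + e₂) * finrank ℝ (A 0) ≤
      φ (A 0) := by
  have hbot : A N = ⊥ := by
    obtain ⟨A'', hA⟩ := h (N - 1) (by omega)
    rw [hb, Nat.sub_add_cancel hN] at hA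
    rw [Submodule.eq_bot_iff]
    intro v hv
    have h1 := hA.small v hv
    have h2 : dm (⊥ : Submodule ℝ V) v = ‖v‖ := by
      have h3 := starProjection_apply_mem (⊥ : Submodule ℝ V) v
      rw [Submodule.mem_bot] at h3
      rw [dm, h3, sub_zero]
    rw [h2] at h1
    by_contra hne
    have h3 : 0 < ‖v‖ := norm_pos_iff.mpr hne
    nlinarith
  have key : ∀ M ≤ N, φ (A M) - ∑ j ∈ Finset.range M, ((((j : ℝ) + 1) * δ + e₁ + e₂) *
      ((finrank ℝ (A j) : ℝ) - finrank ℝ (A (j + 1)))) ≤ φ (A 0) := by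
    intro M
    induction M with
    | zero => intro _; simp
    | succ M ih =>
      intro hM
      have h1 := ih (by omega)
      obtain ⟨A'', hA⟩ := h M (by omega)
      have h2 := tel_step he₁ he₂ (by positivity) hφ (hU M (by omega)) hA
      rw [Finset.sum_range_succ]
      linarith
  have h1 := key N le_rfl
  rw [hbot] at h1
  have h2 : ∑ j ∈ Finset.range N, ((((j : ℝ) + 1) * δ + e₁ + e₂) *
      ((finrank ℝ (A j) : ℝ) - finrank ℝ (A (j + 1)))) =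
      δ * (∑ j ∈ Finset.range N, (finrank ℝ (A j) : ℝ)) + (e₁ + e₂) * finrank ℝ (A 0) := by
    have e1 := abel (fun j => (finrank ℝ (A j) : ℝ)) N
    have e2 := Finset.sum_range_sub' (fun j => (finrank ℝ (A j) : ℝ)) N
    have hd : (finrank ℝ (A N) : ℝ) = 0 := by rw [hbot]; simp
    rw [hd, mul_zero, sub_zero] at e1
    rw [hd, sub_zero] at e2
    calc _ = ∑ j ∈ Finset.range N, (δ * (((j : ℝ) + 1) *
          ((finrank ℝ (A j) : ℝ) - finrank ℝ (A (j + 1)))) +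
          (e₁ + e₂) * ((finrank ℝ (A j) : ℝ) - finrank ℝ (A (j + 1)))) :=
        Finset.sum_congr rfl fun j _ => by ring
      _ = _ := by rw [Finset.sum_add_distrib, ← Finset.mul_sum, ← Finset.mul_sum, e1, e2]
  rw [h2] at h1
  linarith

theorem envl {φ : Submodule ℝ V → ℝ} {δ e : ℝ} (he : 0 ≤ e) (hδ : 0 ≤ δ) {N : ℕ}
    {U : ℕ → Submodule ℝ V} (hN : 1 ≤ N) (hU : ∀ j < N, Nmn φ (((j : ℝ) + 1) * δ) e (U j))
    (hb : U (N - 1) = ⊥) (h0 : 0 ≤ φ (U 0)) :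
    δ * ∑ j ∈ Finset.range N, (finrank ℝ (U j) : ℝ) ≤ φ ⊥ + N * e + δ * finrank ℝ V := by
  have key : ∀ M < N, φ (U 0) + δ * finrank ℝ (U 0) + δ * ∑ j ∈ Finset.range M,
      (finrank ℝ (U (j + 1)) : ℝ) ≤
      φ (U M) + ((M : ℝ) + 1) * δ * finrank ℝ (U M) + M * e := by
    intro M
    induction M with
    | zero => intro _; simp
    | succ M ih =>
      intro hM
      have h1 := ih (by omega)
      have h2 := hU M (by omega) (U (M + 1))
      rw [Finset.sum_range_succ]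
      push_cast
      linarith
  have h1 := key (N - 1) (by omega)
  rw [hb] at h1
  have h2 : (∑ j ∈ Finset.range N, (finrank ℝ (U j) : ℝ)) =
      (∑ j ∈ Finset.range (N - 1), (finrank ℝ (U (j + 1)) : ℝ)) + finrank ℝ (U 0) := by
    conv_lhs => rw [← Nat.sub_add_cancel hN]
    rw [Finset.sum_range_succ']
  rw [h2]
  have h3 : ((N - 1 : ℕ) : ℝ) ≤ N := by exact_mod_cast Nat.sub_le N 1
  have h4 : (finrank ℝ (U 0) : ℝ) ≤ finrank ℝ V := by exact_mod_cast Submodule.finrank_le (U 0)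
  have h5 : ((N - 1 : ℕ) : ℝ) * e ≤ N * e := mul_le_mul_of_nonneg_right h3 he
  have h6 : 0 ≤ δ * (finrank ℝ (U 0) : ℝ) := by positivity
  have h7 : (0 : ℝ) ≤ δ * finrank ℝ V := by positivity
  rw [finrank_bot, Nat.cast_zero, mul_zero, add_zero] at h1
  have h8 : δ * (finrank ℝ (U 0) : ℝ) ≤ δ * finrank ℝ V := mul_le_mul_of_nonneg_left h4 hδ
  linarith

end Pool.BL
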